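import Mathlib

set_option autoImplicit false

open MeasureTheory FourierTransform
open scoped ENNReal

namespace Pool.Agent.Helper66.WS

/-- The group `G = ℝ^d` (with Lebesgue measure), identified with its dual group through
`⟨ξ, x⟩ = exp (2 π i ξ · x)`. -/
abbrev E (d : ℕ) : Type := EuclideanSpace ℝ (Fin d)

/-- The topological automorphisms of the group `ℝ^d` (that is, the invertible linear maps). -/
abbrev AutE (d : ℕ) : Type := E d ≃L[ℝ] E d

variable {V : Type} [NormedAddCommGroup V] [InnerProductSpace ℝ V] [FiniteDimensional ℝ V]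
  [MeasurableSpace V] [BorelSpace V]

/-- The modular function `Δ(a) = |det a|` of a topological automorphism `a` of the finite
dimensional Euclidean space `V`. -/
noncomputable def modulus (a : V ≃L[ℝ] V) : ℝ := |LinearMap.det (a : V →ₗ[ℝ] V)|

/-- `ψ_{λ,a} (x) = Δ(a)^{1/2} ψ (a x - λ)`. -/
noncomputable def wavelet (ψ : V → ℂ) (lam : V) (a : V ≃L[ℝ] V) (x : V) : ℂ :=
  (Real.sqrt (modulus a) : ℂ) * ψ (a x - lam)

/-- A family of vectors of a complex Hilbert space is an orthogonal basis. -/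
def IsOrthogonalBasis {ι H : Type*} [NormedAddCommGroup H] [InnerProductSpace ℂ H]
    (φ : ι → H) : Prop :=
  (∀ i, φ i ≠ 0) ∧ (∀ i j, i ≠ j → inner ℂ (φ i) (φ j) = 0) ∧
    (Submodule.span ℂ (Set.range φ)).topologicalClosure = ⊤

/-- The family `φ` of functions on `V` is (a.e. equal to) an orthogonal basis of `L²(V)`. -/
def IsOrthogonalBasisL2 {ι : Type} (φ : ι → V → ℂ) : Prop :=
  ∃ Φ : ι → Lp ℂ 2 (volume : Measure V), (∀ i, Φ i =ᵐ[volume] φ i) ∧ IsOrthogonalBasis Φ

/-- `g` is the Plancherel (`L²`) Fourier transform of `ψ ∈ L²(V)`. -/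
def HasFourierTransformL2 (ψ : Lp ℂ 2 (volume : Measure V)) (g : V → ℂ) : Prop :=
  (𝓕 ψ : Lp ℂ 2 (volume : Measure V)) =ᵐ[volume] g

/-- `Ω ⊆ V` is a wavelet set with respect to `B ⊆ V × Aut(V)`: it is measurable with
`0 < |Ω| < ∞`, and for the function `ψ ∈ L²` whose (Plancherel) Fourier transform is the
indicator function of `Ω`, the family `ψ_{λ,a}`, `(λ, a) ∈ B`, is an orthogonal basis of
`L²(V)`. -/
def IsWaveletSet (B : Set (V × (V ≃L[ℝ] V))) (Ω : Set V) : Prop :=
  MeasurableSet Ω ∧ 0 < volume Ω ∧ volume Ω < ∞ ∧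
    ∃ ψ : Lp ℂ 2 (volume : Measure V), HasFourierTransformL2 ψ (Ω.indicator (fun _ => 1)) ∧
      IsOrthogonalBasisL2 (fun p : B => wavelet ψ p.1.1 p.1.2)

/-- `Ω` tiles `V` additively: for a countable set `T` of translations,
`∑_{t ∈ T} 1_Ω (ξ - t) = 1` for almost every `ξ`. -/
def TilesAdditively (Ω : Set V) : Prop :=
  ∃ T : Set V, T.Countable ∧
    ∀ᵐ ξ, ∑' t : T, Ω.indicator (fun _ => (1 : ℝ≥0∞)) (ξ - (t : V)) = 1

end Pool.Agent.Helper66.WS
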