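import Mathlib
import Pool.Agent.Helper66.WS.Defs

set_option autoImplicit false

open MeasureTheory FourierTransform
open scoped ENNReal RealInnerProductSpace

namespace Pool.Agent.Helper66.WS

variable {d : ℕ}

/-- On `L¹ ∩ L²` the inverse Plancherel transform is given by the Fourier integral. -/
theorem fourierInv_toLp {g : E d → ℂ} (hg1 : Integrable g) (hg2 : MemLp g 2 volume) :
    ((𝓕⁻ (hg2.toLp g) : Lp ℂ 2 (volume : Measure (E d))) : E d → ℂ) =ᵐ[volume] 𝓕⁻ g := by
  set u : Lp ℂ 2 (volume : Measure (E d)) := 𝓕⁻ (hg2.toLp g) with hu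
  have hcont : Continuous (𝓕⁻ g) := by
    have h1 : 𝓕⁻ g = fun w => 𝓕 g (-w) := by
      ext w
      rw [Real.fourierInv_eq_fourier_neg]
    rw [h1]
    have h2 : Continuous (𝓕 g) :=
      VectorFourier.fourierIntegral_continuous Real.continuous_fourierChar
        (by exact continuous_inner) hg1
    exact h2.comp continuous_neg
  refine ae_eq_of_integral_contDiff_smul_eq ?_ hcont.locallyIntegrable ?_
  · exact (Lp.memLp u).locallyIntegrable (by norm_num)
  · intro φ hφ1 hφ2
    have hφ₁ : HasCompactSupport (Complex.ofRealCLM ∘ φ) := hφ2.comp_left rfl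
    have hφ₂ : ContDiff ℝ (⊤ : ℕ∞) (Complex.ofRealCLM ∘ φ) := by fun_prop
    set Φ := hφ₁.toSchwartzMap hφ₂ with hΦ
    have hΦapply : ∀ x, Φ x = (φ x : ℂ) := fun x => rfl
    -- left side
    have h1 : ∫ x, φ x • u x = (Lp.toTemperedDistribution u) Φ := by
      rw [Lp.toTemperedDistribution_apply]
      refine integral_congr_ae (Filter.Eventually.of_forall fun x => ?_)
      simp only [hΦapply]
      rw [smul_eq_mul, Complex.real_smul]
    have h2 : (Lp.toTemperedDistribution u) Φ
        = (Lp.toTemperedDistribution (hg2.toLp g)) (𝓕⁻ Φ) := by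
      rw [hu, ← Lp.fourierInv_toTemperedDistribution_eq]
      rfl
    have h3 : (Lp.toTemperedDistribution (hg2.toLp g)) (𝓕⁻ Φ) = ∫ x, (𝓕⁻ Φ) x • g x := by
      rw [Lp.toTemperedDistribution_apply]
      refine integral_congr_ae ?_
      filter_upwards [hg2.coeFn_toLp] with x hx
      rw [hx]
    have hΦint : Integrable (fun x => Φ x) := Φ.integrable
    have h4 : ∫ x, (𝓕⁻ (fun x => Φ x)) x • g x = ∫ x, Φ x • (𝓕⁻ g) x := by
      have h5 := VectorFourier.integral_fourierIntegral_smul_eq_flip (μ := volume) (ν := volume)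
        (L := -innerₗ (E d)) Real.continuous_fourierChar
        (by
          have : Continuous fun p : E d × E d => -(inner ℝ p.1 p.2 : ℝ) := by fun_prop
          exact this) hΦint hg1
      have h6 : (-innerₗ (E d)).flip = -innerₗ (E d) := by
        ext x y
        simp [real_inner_comm]
      rw [h6] at h5
      exact h5
    rw [h1, h2, h3]
    have h7 : ∫ x, (𝓕⁻ Φ) x • g x = ∫ x, (𝓕⁻ (fun x => Φ x)) x • g x := by
      refine integral_congr_ae (Filter.Eventually.of_forall fun x => ?_)
      simp only
      congr 1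
      exact congrFun (SchwartzMap.fourierInv_coe Φ) x
    rw [h7, h4]
    refine integral_congr_ae (Filter.Eventually.of_forall fun x => ?_)
    simp only [hΦapply]
    rw [smul_eq_mul, Complex.real_smul]

end Pool.Agent.Helper66.WS
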