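import Mathlib

set_option autoImplicit false

open Finset

namespace Pool.Agent.Helper66.WS

/-- The six points of the spectral set `V` in `(Z/3)^4`. -/
def vv : Fin 6 → Fin 4 → ZMod 3 :=
  ![![0, 0, 0, 0], ![1, 0, 0, 0], ![0, 1, 0, 0], ![0, 0, 1, 0], ![0, 0, 0, 1], ![2, 2, 2, 2]]

/-- The six frequencies, with entries in `{0,1,2}`. -/
def gg : Fin 6 → Fin 4 → ℤ :=
  ![![0, 0, 0, 0], ![0, 1, 1, 2], ![1, 0, 2, 2], ![1, 2, 0, 1], ![2, 2, 1, 0], ![2, 1, 2, 1]]

/-- pairing -/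
def pr (g : Fin 4 → ℤ) (v : Fin 4 → ZMod 3) : ZMod 3 := ∑ k, (g k : ZMod 3) * v k

lemma vv_injective : Function.Injective vv := by decide

lemma vv_zero : vv 0 = 0 := by decide

lemma gg_zero : gg 0 = 0 := by decide

lemma pr_add (g : Fin 4 → ℤ) (v w : Fin 4 → ZMod 3) : pr g (v + w) = pr g v + pr g w := by
  simp only [pr, Pi.add_apply, mul_add, Finset.sum_add_distrib]

lemma pr_sub (g : Fin 4 → ℤ) (v w : Fin 4 → ZMod 3) : pr g (v - w) = pr g v - pr g w := by
  simp only [pr, Pi.sub_apply, mul_sub, Finset.sum_sub_distrib]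

lemma pr_sub_left (g g' : Fin 4 → ℤ) (v : Fin 4 → ZMod 3) :
    pr (g - g') v = pr g v - pr g' v := by
  simp only [pr, Pi.sub_apply, Int.cast_sub, sub_mul, Finset.sum_sub_distrib]

/-- the root of unity character -/
noncomputable def χ (m : ZMod 3) : ℂ := ZMod.stdAddChar m

lemma χ_add (a b : ZMod 3) : χ (a + b) = χ a * χ b := by
  unfold χ; exact AddChar.map_add_eq_mul _ _ _

lemma χ_zero : χ 0 = 1 := by unfold χ; exact AddChar.map_zero_eq_one _

lemma χ_ne_zero (a : ZMod 3) : χ a ≠ 0 := by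
  intro h
  have h1 : χ (a + -a) = 1 := by rw [add_neg_cancel, χ_zero]
  rw [χ_add, h, zero_mul] at h1
  exact zero_ne_one h1

lemma χ_int (j : ℤ) : χ (j : ZMod 3) = Complex.exp (2 * Real.pi * Complex.I * j / 3) := by
  unfold χ
  have := ZMod.stdAddChar_coe (N := 3) j
  rw [this]
  norm_num

lemma χ_sum : ∑ m : ZMod 3, χ m = 0 := by
  have h : ∑ m : ZMod 3, ZMod.stdAddChar m = 0 := by
    refine AddChar.sum_eq_zero_of_ne_one ?_
    intro h
    have h1 := ZMod.injective_stdAddChar (N := 3)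
      (show ZMod.stdAddChar (1 : ZMod 3) = ZMod.stdAddChar (0 : ZMod 3) by rw [h]; rfl)
    exact absurd h1 (by decide)
  exact h

lemma sum_χ_of_count (f : Fin 6 → ZMod 3)
    (h : ∀ m, (univ.filter (fun k => f k = m)).card = 2) : ∑ k, χ (f k) = 0 := by
  have h1 : ∑ k, χ (f k) = ∑ m : ZMod 3, ∑ k ∈ univ.filter (fun k => f k = m), χ (f k) :=
    (Finset.sum_fiberwise (univ : Finset (Fin 6)) f (fun k => χ (f k))).symm
  have h2 : ∀ m : ZMod 3, ∑ k ∈ univ.filter (fun k => f k = m), χ (f k) = 2 * χ m := by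
    intro m
    rw [Finset.sum_congr rfl (g := fun _ => χ m) (fun k hk => by rw [(Finset.mem_filter.1 hk).2])]
    rw [Finset.sum_const, h m, nsmul_eq_mul]
    norm_num
  rw [h1]
  simp only [h2]
  rw [← Finset.mul_sum, χ_sum, mul_zero]

lemma row_orth (i j : Fin 6) (hij : i ≠ j) : ∑ k, χ (pr (gg i - gg j) (vv k)) = 0 := by
  refine sum_χ_of_count _ ?_
  revert hij i j
  decide

lemma col_orth (k l : Fin 6) (hkl : k ≠ l) : ∑ i, χ (pr (gg i) (vv l - vv k)) = 0 := by
  refine sum_χ_of_count _ ?_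
  revert hkl k l
  decide

end Pool.Agent.Helper66.WS
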