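import Mathlib
import Pool.Agent.Helper66.WS.Comb

set_option autoImplicit false

open Finset

namespace Pool.Agent.Helper66.WS

/-- the cell class of a point -/
noncomputable def cc (x : Fin 4 → ℝ) : Fin 4 → ZMod 3 :=
  fun i => ((⌊256 * x i + 1 / 2⌋ : ℤ) : ZMod 3)

/-- the spectral set in `(Z/3)^4` -/
def V : Set (Fin 4 → ZMod 3) := Set.range vv

/-- the periodic set -/
def W : Set (Fin 4 → ℝ) := {x | cc x ∈ V}

/-- the fundamental box -/
def Box0 : Set (Fin 4 → ℝ) := {x | ∀ i, x i ∈ Set.Ico (-1 / 512 : ℝ) (-1 / 512 + 3)}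

/-- the translation model -/
def K : Set (Fin 4 → ℝ) := {x | x ∈ W ∧ x ∈ Box0}

/-- half-open cube -/
def Cube (t : ℝ) : Set (Fin 4 → ℝ) := {y | ∀ i, y i ∈ Set.Ico (-t) t}

/-- the dilation model -/
def Dd : Set (Fin 4 → ℝ) := {y | y ∈ Cube 1 ∧ y ∉ Cube (1 / 2)}

/-- the scaled copy of the dilation model inside `K` -/
def jD : Set (Fin 4 → ℝ) := {y | (512 : ℝ) • y ∈ Dd}

/-- the translation vector -/
def nine : Fin 4 → ℝ := fun _ => 9

/-- the expanding map -/
noncomputable def Smap (z : Fin 4 → ℝ) : Fin 4 → ℝ := (8192 : ℝ) • z - nine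

/-- its inverse -/
noncomputable def Tmap (z : Fin 4 → ℝ) : Fin 4 → ℝ := (8192 : ℝ)⁻¹ • (z + nine)

/-- the Cantor-Schroeder-Bernstein set -/
def K1 : Set (Fin 4 → ℝ) := {z | ∃ n : ℕ, Smap^[n] z ∈ K ∧ Smap^[n] z ∉ jD}

/-- the wavelet set -/
def Om : Set (Fin 4 → ℝ) := {x | x - nine ∈ K1 ∨ (x ∈ K ∧ x ∉ K1)}

lemma S_T (z : Fin 4 → ℝ) : Smap (Tmap z) = z := by
  unfold Smap Tmap
  rw [smul_smul]
  norm_num

lemma T_S (z : Fin 4 → ℝ) : Tmap (Smap z) = z := by
  unfold Smap Tmap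
  rw [sub_add_cancel, smul_smul]
  norm_num

lemma cc_add_int (x : Fin 4 → ℝ) (n : Fin 4 → ℤ) :
    cc (x + fun i => (n i : ℝ)) = cc x + fun i => (n i : ZMod 3) := by
  funext i
  simp only [cc, Pi.add_apply]
  have h : 256 * (x i + (n i : ℝ)) + 1 / 2 = 256 * x i + 1 / 2 + ((256 * n i : ℤ) : ℝ) := by
    push_cast; ring
  rw [h, Int.floor_add_intCast]
  push_cast
  have : (256 : ZMod 3) = 1 := by decide
  rw [this, one_mul]

lemma cc_of_small {y : Fin 4 → ℝ} (h : ∀ i, y i ∈ Set.Ico (-1 / 512 : ℝ) (1 / 512)) :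
    cc y = 0 := by
  funext i
  simp only [cc, Pi.zero_apply]
  have h1 := h i
  have h2 : ⌊256 * y i + 1 / 2⌋ = 0 := by
    rw [Int.floor_eq_iff]
    constructor
    · push_cast; linarith [h1.1]
    · push_cast; linarith [h1.2]
  rw [h2]
  rfl

lemma zero_mem_V : (0 : Fin 4 → ZMod 3) ∈ V := ⟨0, vv_zero⟩

lemma small_mem_K {y : Fin 4 → ℝ} (h : ∀ i, y i ∈ Set.Ico (-1 / 512 : ℝ) (1 / 512)) : y ∈ K := by
  refine ⟨?_, ?_⟩
  · change cc y ∈ V
    rw [cc_of_small h]
    exact zero_mem_V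
  · intro i
    exact ⟨(h i).1, by linarith [(h i).2]⟩

lemma jD_small {y : Fin 4 → ℝ} (h : y ∈ jD) : ∀ i, y i ∈ Set.Ico (-1 / 512 : ℝ) (1 / 512) := by
  intro i
  have h1 := h.1 i
  simp only [Pi.smul_apply, smul_eq_mul, Set.mem_Ico] at h1
  exact ⟨by linarith [h1.1], by linarith [h1.2]⟩

lemma jD_subset_K {y : Fin 4 → ℝ} (h : y ∈ jD) : y ∈ K := small_mem_K (jD_small h)

lemma T_mem_jD {z : Fin 4 → ℝ} (h : z ∈ Box0) : Tmap z ∈ jD := by
  refine ⟨?_, ?_⟩
  · intro i
    have h1 := h i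
    simp only [Tmap, nine, Pi.smul_apply, Pi.add_apply, smul_eq_mul, Set.mem_Ico] at h1 ⊢
    constructor
    · linarith [h1.1]
    · linarith [h1.2]
  · intro hc
    have h1 := h 0
    have h2 := hc 0
    simp only [Tmap, nine, Pi.smul_apply, Pi.add_apply, smul_eq_mul, Set.mem_Ico] at h1 h2
    linarith [h1.1, h2.2]

lemma K1_subset_K {z : Fin 4 → ℝ} (h : z ∈ K1) : z ∈ K := by
  obtain ⟨n, hn, -⟩ := h
  induction n generalizing z with
  | zero => exact hn
  | succ n ih =>
    rw [Function.iterate_succ_apply] at hn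
    have h1 := ih hn
    have h2 := jD_subset_K (T_mem_jD h1.2)
    rwa [T_S] at h2

lemma T_mem_K1 {z : Fin 4 → ℝ} (h : z ∈ K1) : Tmap z ∈ K1 := by
  obtain ⟨n, hn⟩ := h
  refine ⟨n + 1, ?_⟩
  rw [Function.iterate_succ_apply, S_T]
  exact hn

lemma S_mem_K1 {z : Fin 4 → ℝ} (h : z ∈ K1) (hj : z ∈ jD) : Smap z ∈ K1 := by
  obtain ⟨n, hn⟩ := h
  cases n with
  | zero => exact absurd hj hn.2
  | succ n =>
    rw [Function.iterate_succ_apply] at hn
    exact ⟨n, hn⟩

lemma not_K1_mem_jD {z : Fin 4 → ℝ} (hK : z ∈ K) (h : z ∉ K1) : z ∈ jD := by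
  by_contra hj
  exact h ⟨0, hK, hj⟩

/-! ### Fibres over the integer lattice -/

lemma cc_sub_nine (x : Fin 4 → ℝ) : cc (x - nine) = cc x := by
  have h : x - nine = x + fun i => (((fun _ => -9 : Fin 4 → ℤ) i : ℤ) : ℝ) := by
    funext i
    simp only [Pi.sub_apply, nine, Pi.add_apply]
    push_cast
    ring
  rw [h, cc_add_int]
  funext i
  simp only [Pi.add_apply]
  have : (((-9 : ℤ)) : ZMod 3) = 0 := by decide
  rw [this, add_zero]

lemma Om_subset_W {x : Fin 4 → ℝ} (h : x ∈ Om) : cc x ∈ V := by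
  rcases h with h | h
  · have := (K1_subset_K h).1
    change cc (x - nine) ∈ V at this
    rwa [cc_sub_nine] at this
  · exact h.1.1

lemma exists_box (x : Fin 4 → ℝ) :
    ∃ k : Fin 4 → ℤ, ∀ k' : Fin 4 → ℤ,
      (x + fun i => ((3 * k' i : ℤ) : ℝ)) ∈ Box0 ↔ k' = k := by
  have h : ∀ i, ∃! m : ℤ, x i + m • (3 : ℝ) ∈ Set.Ico (-1 / 512 : ℝ) (-1 / 512 + 3) :=
    fun i => existsUnique_add_zsmul_mem_Ico (by norm_num) (x i) _
  choose k hk huniq using h
  refine ⟨k, fun k' => ⟨fun hk' => ?_, ?_⟩⟩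
  · funext i
    refine huniq i (k' i) ?_
    have := hk' i
    simp only [Pi.add_apply] at this
    simp only [zsmul_eq_mul]
    push_cast at this
    rwa [mul_comm] at this
  · rintro rfl i
    have := hk i
    simp only [zsmul_eq_mul] at this
    simp only [Pi.add_apply]
    push_cast
    rwa [mul_comm] at this

/-- If the class is in `V`, exactly one translate by `3 Z^4` is in `Om`. -/
lemma exists_unique_shift {x : Fin 4 → ℝ} (hx : cc x ∈ V) :
    ∃ k : Fin 4 → ℤ, ∀ k' : Fin 4 → ℤ,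
      (x + fun i => ((3 * k' i : ℤ) : ℝ)) ∈ Om ↔ k' = k := by
  obtain ⟨k, hk⟩ := exists_box x
  have hcc : ∀ k' : Fin 4 → ℤ, cc (x + fun i => ((3 * k' i : ℤ) : ℝ)) = cc x := by
    intro k'
    rw [cc_add_int x (fun i => 3 * k' i)]
    funext i
    simp only [Pi.add_apply]
    push_cast
    have : (3 : ZMod 3) = 0 := by decide
    rw [this, zero_mul, add_zero]
  have hK : ∀ k' : Fin 4 → ℤ, (x + fun i => ((3 * k' i : ℤ) : ℝ)) ∈ K ↔ k' = k := by
    intro k'
    constructor
    · intro h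
      exact (hk k').1 h.2
    · intro h
      refine ⟨?_, (hk k').2 h⟩
      change cc _ ∈ V
      rw [hcc]
      exact hx
  have hshift : ∀ k' : Fin 4 → ℤ, (x + fun i => ((3 * k' i : ℤ) : ℝ)) - nine
      = x + fun i => ((3 * (k' i - 3) : ℤ) : ℝ) := by
    intro k'
    funext i
    simp only [Pi.sub_apply, Pi.add_apply, nine]
    push_cast
    ring
  by_cases hz : (x + fun i => ((3 * k i : ℤ) : ℝ)) ∈ K1
  · refine ⟨fun i => k i + 3, fun k' => ⟨fun h => ?_, fun h => ?_⟩⟩
    · rcases h with h | h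
      · rw [hshift] at h
        have h1 := (hK (fun i => k' i - 3)).1 (K1_subset_K h)
        funext i
        have := congrFun h1 i
        omega
      · exfalso
        have h1 := (hK k').1 h.1
        subst h1
        exact h.2 hz
    · subst h
      left
      rw [hshift]
      simpa using hz
  · refine ⟨k, fun k' => ⟨fun h => ?_, fun h => ?_⟩⟩
    · rcases h with h | h
      · exfalso
        rw [hshift] at h
        have h1 := (hK (fun i => k' i - 3)).1 (K1_subset_K h)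
        apply hz
        rw [← h1]
        exact h
      · exact (hK k').1 h.1
    · subst h
      exact Or.inr ⟨(hK k').2 rfl, hz⟩

lemma Om_bounds {x : Fin 4 → ℝ} (h : x ∈ Om) : ∀ i, -1 / 512 ≤ x i ∧ x i < 12 := by
  intro i
  rcases h with h | h
  · have h1 := (K1_subset_K h).2 i
    simp only [Pi.sub_apply, nine, Set.mem_Ico] at h1
    constructor
    · linarith [h1.1]
    · linarith [h1.2]
  · have h1 := h.1.2 i
    simp only [Set.mem_Ico] at h1
    constructor
    · linarith [h1.1]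
    · linarith [h1.2]

/-- the finite set of relevant lattice translates -/
noncomputable def Bx : Finset (Fin 4 → ℤ) := Fintype.piFinset (fun _ => Finset.Icc (-1) 11)

/-- the unit cell -/
def Q : Set (Fin 4 → ℝ) := {x | ∀ i, x i ∈ Set.Ioc (0 : ℝ) 1}

lemma mem_Bx {x : Fin 4 → ℝ} (hx : x ∈ Q) {n : Fin 4 → ℤ}
    (h : (x + fun i => (n i : ℝ)) ∈ Om) : n ∈ Bx := by
  unfold Bx
  rw [Fintype.mem_piFinset]
  intro i
  have h1 := Om_bounds h i
  have h2 := hx i
  simp only [Pi.add_apply] at h1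
  rw [Finset.mem_Icc]
  constructor
  · have h3 : (-2 : ℝ) < n i := by linarith [h1.1, h2.2]
    have h4 : (-2 : ℤ) < n i := by exact_mod_cast h3
    omega
  · have h3 : (n i : ℝ) < 12 := by linarith [h1.2, h2.1]
    have h4 : n i < 12 := by exact_mod_cast h3
    omega

open Classical in
/-- The sum over the fibre of a function of the residue class. -/
lemma fibre_sum {x : Fin 4 → ℝ} (hx : x ∈ Q) (φ : (Fin 4 → ZMod 3) → ℂ) :
    ∑ n ∈ Bx, (if (x + fun i => (n i : ℝ)) ∈ Om then φ (fun i => (n i : ZMod 3)) else 0)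
      = ∑ k : Fin 6, φ (vv k - cc x) := by
  rw [← Finset.sum_filter]
  symm
  -- for each `k` the unique lattice point
  have hlift : ∀ k : Fin 6, ∃ n : Fin 4 → ℤ, (fun i => (n i : ZMod 3)) = vv k - cc x ∧
      (x + fun i => (n i : ℝ)) ∈ Om ∧
      ∀ n' : Fin 4 → ℤ, (fun i => (n' i : ZMod 3)) = vv k - cc x →
        (x + fun i => (n' i : ℝ)) ∈ Om → n' = n := by
    intro k
    have h0 : ∀ i, ∃ m : ℤ, (m : ZMod 3) = (vv k - cc x) i := fun i => ZMod.intCast_surjective _
    choose n0 hn0 using h0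
    have h1 : cc (x + fun i => (n0 i : ℝ)) ∈ V := by
      rw [cc_add_int]
      refine ⟨k, ?_⟩
      funext i
      simp only [Pi.add_apply]
      rw [hn0 i]
      simp
    obtain ⟨q, hq⟩ := exists_unique_shift h1
    have hcomb : ∀ q' : Fin 4 → ℤ, (x + fun i => (n0 i : ℝ)) + (fun i => ((3 * q' i : ℤ) : ℝ))
        = x + fun i => ((n0 i + 3 * q' i : ℤ) : ℝ) := by
      intro q'
      funext i
      simp only [Pi.add_apply]
      push_cast
      ring
    refine ⟨fun i => n0 i + 3 * q i, ?_, ?_, ?_⟩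
    · funext i
      push_cast
      have : (3 : ZMod 3) = 0 := by decide
      rw [this, zero_mul, add_zero, hn0 i]
    · have := (hq q).2 rfl
      rwa [hcomb] at this
    · intro n' hn' hn'Om
      have h2 : ∀ i, ∃ q' : ℤ, n' i = n0 i + 3 * q' := by
        intro i
        have h3 : ((n' i : ℤ) : ZMod 3) = ((n0 i : ℤ) : ZMod 3) := by
          rw [hn0 i, ← hn']
        rw [ZMod.intCast_eq_intCast_iff_dvd_sub] at h3
        obtain ⟨c, hc⟩ := h3
        refine ⟨-c, ?_⟩
        push_cast at hc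
        omega
      choose q' hq' using h2
      have h3 : q' = q := by
        rw [← hq q', hcomb]
        have : (fun i => ((n0 i + 3 * q' i : ℤ) : ℝ)) = fun i => (n' i : ℝ) := by
          funext i
          rw [hq' i]
        rw [this]
        exact hn'Om
      funext i
      rw [hq' i, h3]
  choose n hn1 hn2 hn3 using hlift
  refine Finset.sum_bij (fun k _ => n k) ?_ ?_ ?_ ?_
  · intro k _
    rw [Finset.mem_filter]
    exact ⟨mem_Bx hx (hn2 k), hn2 k⟩
  · intro k _ k' _ h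
    have h1 : vv k - cc x = vv k' - cc x := by rw [← hn1 k, ← hn1 k', h]
    exact vv_injective (sub_left_inj.1 h1)
  · intro m hm
    rw [Finset.mem_filter] at hm
    have h1 := Om_subset_W hm.2
    rw [cc_add_int] at h1
    obtain ⟨k, hk⟩ := h1
    refine ⟨k, Finset.mem_univ _, ?_⟩
    refine (hn3 k m ?_ hm.2).symm
    rw [hk]
    simp
  · intro k _
    rw [hn1 k]

end Pool.Agent.Helper66.WS
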