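import Mathlib
import Pool.Agent.Helper66.WS.Sets

set_option autoImplicit false

open Finset

namespace Pool.Agent.Helper66.WS

lemma cube_scale {t c : ℝ} (hc : 0 < c) (x : Fin 4 → ℝ) : c • x ∈ Cube t ↔ x ∈ Cube (t / c) := by
  unfold Cube
  simp only [Set.mem_ofPred_eq, Set.mem_Ico, Pi.smul_apply, smul_eq_mul]
  refine forall_congr' fun i => ?_
  rw [← neg_div, div_le_iff₀ hc, lt_div_iff₀ hc, mul_comm c (x i)]

lemma cube_mono {s t : ℝ} (h : s ≤ t) {x : Fin 4 → ℝ} (hx : x ∈ Cube s) : x ∈ Cube t := by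
  intro i
  have := hx i
  exact ⟨by linarith [this.1], by linarith [this.2]⟩

lemma Dd_unique {x : Fin 4 → ℝ} (hx : x ≠ 0) : ∃! n : ℤ, ((2 : ℝ) ^ n) • x ∈ Dd := by
  have hpos : ∀ n : ℤ, (0 : ℝ) < 2 ^ n := fun n => by positivity
  -- the set of exponents with `2^n x` in the unit cube
  have hdown : ∀ n m : ℤ, m ≤ n → ((2 : ℝ) ^ n) • x ∈ Cube 1 → ((2 : ℝ) ^ m) • x ∈ Cube 1 := by
    intro n m hmn h
    rw [cube_scale (hpos n)] at h
    rw [cube_scale (hpos m)]
    refine cube_mono ?_ h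
    exact div_le_div_of_nonneg_left zero_le_one (hpos m) (zpow_le_zpow_right₀ (by norm_num) hmn)
  have hne : ∃ n : ℤ, ((2 : ℝ) ^ n) • x ∈ Cube 1 := by
    -- bound on the coordinates
    obtain ⟨M, hM⟩ : ∃ M : ℝ, ∀ i, |x i| < M := by
      refine ⟨∑ i, |x i| + 1, fun i => ?_⟩
      have := Finset.single_le_sum (fun j _ => abs_nonneg (x j)) (Finset.mem_univ i)
      linarith
    obtain ⟨k, hk⟩ := pow_unbounded_of_one_lt M (one_lt_two)
    refine ⟨-(k : ℤ), ?_⟩
    rw [cube_scale (hpos _)]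
    intro i
    have h1 := hM i
    rw [abs_lt] at h1
    have h2 : (1 : ℝ) / 2 ^ (-(k : ℤ)) = 2 ^ k := by
      rw [zpow_neg, zpow_natCast, one_div, inv_inv]
    rw [h2]
    exact ⟨by linarith [h1.1], by linarith [h1.2]⟩
  have hbdd : ∃ b : ℤ, ∀ n : ℤ, ((2 : ℝ) ^ n) • x ∈ Cube 1 → n ≤ b := by
    obtain ⟨i, hi⟩ : ∃ i, x i ≠ 0 := by
      by_contra hc
      push Not at hc
      exact hx (funext hc)
    have hi' : 0 < |x i| := abs_pos.2 hi
    obtain ⟨k, hk⟩ := pow_unbounded_of_one_lt (1 / |x i|) (one_lt_two)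
    refine ⟨k, fun n hn => ?_⟩
    by_contra hc
    push Not at hc
    have h1 := hdown n k hc.le hn i
    simp only [Pi.smul_apply, smul_eq_mul, zpow_natCast, Set.mem_Ico] at h1
    rw [div_lt_iff₀ hi'] at hk
    have h2 : |(2 : ℝ) ^ k * x i| ≤ 1 := by
      rw [abs_le]
      exact ⟨h1.1, h1.2.le⟩
    rw [abs_mul, abs_of_pos (by positivity : (0 : ℝ) < 2 ^ k)] at h2
    linarith
  have hhalf : ∀ n : ℤ, ((2 : ℝ) ^ n) • x ∈ Cube (1 / 2) ↔ ((2 : ℝ) ^ (n + 1)) • x ∈ Cube 1 := by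
    intro n
    rw [cube_scale (hpos n), cube_scale (hpos (n + 1))]
    have : (1 : ℝ) / 2 / 2 ^ n = 1 / 2 ^ (n + 1) := by
      rw [zpow_add_one₀ (by norm_num), div_div]
      ring
    rw [this]
  obtain ⟨b, hb⟩ := hbdd
  obtain ⟨n, hn, hmax⟩ := Int.exists_greatest_of_bdd ⟨b, hb⟩ hne
  refine ⟨n, ⟨hn, fun hc => ?_⟩, ?_⟩
  · rw [hhalf] at hc
    have := hmax _ hc
    omega
  · rintro m ⟨hm1, hm2⟩
    rw [hhalf] at hm2
    have h1 := hmax m hm1
    by_contra hc
    have h2 : m + 1 ≤ n := by omega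
    exact hm2 (hdown n (m + 1) h2 hn)

/-- Every nonzero point has exactly one dyadic dilate in `Om`. -/
lemma Om_dilation {x : Fin 4 → ℝ} (hx : x ≠ 0) : ∃! n : ℤ, ((2 : ℝ) ^ n) • x ∈ Om := by
  obtain ⟨n0, hn0, hn0u⟩ := Dd_unique hx
  simp only at hn0 hn0u
  -- the two parts
  have hpart1 : ∀ n : ℤ, ((2 : ℝ) ^ n) • x - nine ∈ K1 →
      n - 4 = n0 ∧ (16 : ℝ) • (((2 : ℝ) ^ n0) • x) - nine ∈ K1 := by
    intro n h
    have h1 : ((2 : ℝ) ^ (n - 4)) • x ∈ Dd := by
      have h2 := (K1_subset_K h).2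
      have h3 : ∀ i, ((2 : ℝ) ^ n) * x i = 16 * ((2 : ℝ) ^ (n - 4) * x i) := by
        intro i
        rw [zpow_sub₀ (by norm_num)]
        norm_num
        ring
      constructor
      · intro i
        have h4 := h2 i
        simp only [Pi.sub_apply, Pi.smul_apply, smul_eq_mul, nine, Set.mem_Ico] at h4 ⊢
        rw [h3 i] at h4
        constructor
        · linarith [h4.1]
        · linarith [h4.2]
      · intro hc
        have h4 := h2 0
        have h5 := hc 0
        simp only [Pi.sub_apply, Pi.smul_apply, smul_eq_mul, nine, Set.mem_Ico] at h4 h5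
        rw [h3 0] at h4
        linarith [h4.1, h5.2]
    have h2 := hn0u _ h1
    refine ⟨h2, ?_⟩
    have h3 : (16 : ℝ) • (((2 : ℝ) ^ n0) • x) = ((2 : ℝ) ^ n) • x := by
      rw [smul_smul, ← h2, zpow_sub₀ (by norm_num)]
      norm_num
      congr 1
      ring
    rw [h3]
    exact h
  have hS : ∀ y : Fin 4 → ℝ, Smap ((512 : ℝ)⁻¹ • y) = (16 : ℝ) • y - nine := by
    intro y
    unfold Smap
    rw [smul_smul]
    norm_num
  have hpart2 : ∀ n : ℤ, (((2 : ℝ) ^ n) • x ∈ K ∧ ((2 : ℝ) ^ n) • x ∉ K1) →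
      n + 9 = n0 ∧ (16 : ℝ) • (((2 : ℝ) ^ n0) • x) - nine ∉ K1 := by
    rintro n ⟨h, h'⟩
    have h1 := not_K1_mem_jD h h'
    have h3 : (512 : ℝ) • (((2 : ℝ) ^ n) • x) = ((2 : ℝ) ^ (n + 9)) • x := by
      rw [smul_smul, zpow_add₀ (by norm_num)]
      norm_num
      congr 1
      ring
    have h2 : ((2 : ℝ) ^ (n + 9)) • x ∈ Dd := by
      have := h1
      unfold jD at this
      rw [Set.mem_ofPred_eq, h3] at this
      exact this
    have h4 := hn0u _ h2
    refine ⟨h4, ?_⟩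
    intro hc
    apply h'
    rw [← h4, ← hS, ← h3, smul_smul] at hc
    norm_num at hc
    have := T_mem_K1 hc
    rwa [T_S] at this
  by_cases hz : (16 : ℝ) • (((2 : ℝ) ^ n0) • x) - nine ∈ K1
  · refine ⟨n0 + 4, ?_, ?_⟩
    · left
      have h3 : ((2 : ℝ) ^ (n0 + 4)) • x = (16 : ℝ) • (((2 : ℝ) ^ n0) • x) := by
        rw [smul_smul, zpow_add₀ (by norm_num)]
        norm_num
        congr 1
        ring
      change ((2 : ℝ) ^ (n0 + 4)) • x - nine ∈ K1
      rw [h3]
      exact hz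
    · intro m hm
      rcases hm with hm | hm
      · have := (hpart1 m hm).1
        omega
      · exact absurd hz (hpart2 m hm).2
  · refine ⟨n0 - 9, ?_, ?_⟩
    · right
      have h3 : ((2 : ℝ) ^ (n0 - 9)) • x = (512 : ℝ)⁻¹ • (((2 : ℝ) ^ n0) • x) := by
        rw [smul_smul, zpow_sub₀ (by norm_num)]
        norm_num
        congr 1
        ring
      rw [h3]
      have hj : (512 : ℝ)⁻¹ • (((2 : ℝ) ^ n0) • x) ∈ jD := by
        unfold jD
        rw [Set.mem_ofPred_eq, smul_smul]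
        norm_num
        exact hn0
      refine ⟨jD_subset_K hj, fun hc => hz ?_⟩
      have := S_mem_K1 hc hj
      rwa [hS] at this
    · intro m hm
      rcases hm with hm | hm
      · exact absurd (hpart1 m hm).2 hz
      · have := (hpart2 m hm).1
        omega

/-! ### Measurability -/

lemma measurable_cc : ∀ v : Fin 4 → ZMod 3, MeasurableSet {x : Fin 4 → ℝ | cc x = v} := by
  intro v
  have h : {x : Fin 4 → ℝ | cc x = v}
      = ⋂ i, (fun x : Fin 4 → ℝ => ⌊256 * x i + 1 / 2⌋) ⁻¹' {m : ℤ | (m : ZMod 3) = v i} := by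
    ext x
    simp only [Set.mem_ofPred_eq, Set.mem_iInter, Set.mem_preimage]
    exact funext_iff
  rw [h]
  refine MeasurableSet.iInter fun i => ?_
  have hm : Measurable (fun x : Fin 4 → ℝ => ⌊256 * x i + 1 / 2⌋) := by
    exact Int.measurable_floor.comp (((measurable_pi_apply i).const_mul 256).add_const _)
  exact hm (MeasurableSet.of_discrete)

lemma measurableSet_W : MeasurableSet W := by
  have h : W = ⋃ k : Fin 6, {x : Fin 4 → ℝ | cc x = vv k} := by
    ext x
    simp only [W, V, Set.mem_ofPred_eq, Set.mem_range, Set.mem_iUnion]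
    exact ⟨fun ⟨k, hk⟩ => ⟨k, hk.symm⟩, fun ⟨k, hk⟩ => ⟨k, hk.symm⟩⟩
  rw [h]
  exact MeasurableSet.iUnion fun k => measurable_cc _

lemma measurableSet_pibox (a b : ℝ) :
    MeasurableSet {x : Fin 4 → ℝ | ∀ i, x i ∈ Set.Ico a b} := by
  have h : {x : Fin 4 → ℝ | ∀ i, x i ∈ Set.Ico a b}
      = Set.univ.pi (fun _ => Set.Ico a b) := by
    ext x; simp
  rw [h]
  exact MeasurableSet.univ_pi (fun _ => measurableSet_Ico)

lemma measurableSet_K : MeasurableSet K :=
  measurableSet_W.inter (measurableSet_pibox _ _)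

lemma measurableSet_Dd : MeasurableSet Dd :=
  (measurableSet_pibox _ _).inter (measurableSet_pibox _ _).compl

lemma measurableSet_jD : MeasurableSet jD :=
  measurableSet_Dd.preimage (measurable_const_smul (512 : ℝ))

lemma measurable_Smap : Measurable Smap := by
  unfold Smap
  fun_prop

lemma measurableSet_K1 : MeasurableSet K1 := by
  have h : K1 = ⋃ n : ℕ, (Smap^[n]) ⁻¹' (K ∩ jDᶜ) := by
    ext z
    simp only [K1, Set.mem_ofPred_eq, Set.mem_iUnion, Set.mem_preimage, Set.mem_inter_iff,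
      Set.mem_compl_iff]
  rw [h]
  exact MeasurableSet.iUnion fun n =>
    (measurable_Smap.iterate n) (measurableSet_K.inter measurableSet_jD.compl)

lemma measurableSet_Om : MeasurableSet Om := by
  have h : Om = (fun x => x - nine) ⁻¹' K1 ∪ (K ∩ K1ᶜ) := by
    ext x
    simp only [Om, Set.mem_ofPred_eq, Set.mem_union, Set.mem_preimage, Set.mem_inter_iff,
      Set.mem_compl_iff]
  rw [h]
  refine MeasurableSet.union ?_ (measurableSet_K.inter measurableSet_K1.compl)
  exact (measurable_id.sub_const nine) measurableSet_K1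

lemma measurableSet_Q : MeasurableSet Q := by
  have h : Q = Set.univ.pi (fun _ => Set.Ioc (0 : ℝ) 1) := by
    ext x; simp [Q]
  rw [h]
  exact MeasurableSet.univ_pi (fun _ => measurableSet_Ioc)

end Pool.Agent.Helper66.WS
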