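import Mathlib
import Pool.Agent.Helper66.WS.Dil

set_option autoImplicit false

open Finset MeasureTheory
open scoped ENNReal ComplexConjugate

namespace Pool.Agent.Helper66.WS

/-- exponential with real frequency vector -/
noncomputable def ex (l x : Fin 4 → ℝ) : ℂ := Complex.exp (2 * Real.pi * Complex.I * (∑ i, l i * x i : ℝ))

lemma ex_add_left (l l' x : Fin 4 → ℝ) : ex (l + l') x = ex l x * ex l' x := by
  unfold ex
  rw [← Complex.exp_add]
  congr 1
  simp only [Pi.add_apply, add_mul, Finset.sum_add_distrib]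
  push_cast
  ring

lemma ex_add_right (l x y : Fin 4 → ℝ) : ex l (x + y) = ex l x * ex l y := by
  unfold ex
  rw [← Complex.exp_add]
  congr 1
  simp only [Pi.add_apply, mul_add, Finset.sum_add_distrib]
  push_cast
  ring

lemma ex_neg (l x : Fin 4 → ℝ) : ex (-l) x = conj (ex l x) := by
  unfold ex
  rw [← Complex.exp_conj]
  congr 1
  simp only [map_mul, Complex.conj_I, Complex.conj_ofReal, Pi.neg_apply, neg_mul,
    Finset.sum_neg_distrib]
  have : conj (2 : ℂ) = 2 := Complex.conj_ofReal 2
  rw [this]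
  push_cast
  ring

lemma norm_ex (l x : Fin 4 → ℝ) : ‖ex l x‖ = 1 := by
  unfold ex
  have : (2 * Real.pi * Complex.I * ((∑ i, l i * x i : ℝ) : ℂ))
      = ((2 * Real.pi * ∑ i, l i * x i : ℝ) : ℂ) * Complex.I := by
    push_cast; ring
  rw [this, Complex.norm_exp_ofReal_mul_I]

lemma continuous_ex (l : Fin 4 → ℝ) : Continuous (ex l) := by
  unfold ex
  fun_prop

/-- In this file we normalise the measure on `ℝ / ℤ` to have total volume 1. -/
noncomputable local instance : MeasureSpace UnitAddCircle := ⟨AddCircle.haarAddCircle⟩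

local instance : Measure.IsAddHaarMeasure (volume : Measure UnitAddCircle) :=
  inferInstanceAs (Measure.IsAddHaarMeasure AddCircle.haarAddCircle)

local instance : IsProbabilityMeasure (volume : Measure UnitAddCircle) :=
  inferInstanceAs (IsProbabilityMeasure AddCircle.haarAddCircle)

/-- representative map -/
noncomputable def rep (z : UnitAddTorus (Fin 4)) : Fin 4 → ℝ :=
  (UnitAddTorus.measurableEquivPiIoc (fun _ => (0 : ℝ)) z).1

lemma Q_eq : {x : Fin 4 → ℝ | ∀ i, x i ∈ Set.Ioc ((fun _ => (0 : ℝ)) i) ((fun _ => (0 : ℝ)) i + 1)}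
    = Q := by
  ext x
  simp [Q]

lemma measurePreserving_rep :
    MeasurePreserving rep (volume : Measure (UnitAddTorus (Fin 4))) (volume.restrict Q) := by
  have h1 := UnitAddTorus.measurePreserving_equivPiIoc (fun _ : Fin 4 => (0 : ℝ))
  have h2 : MeasurePreserving
      (Subtype.val : {x : Fin 4 → ℝ // ∀ i, x i ∈ Set.Ioc (0 : ℝ) (0 + 1)} → (Fin 4 → ℝ))
      (Measure.comap Subtype.val volume) (volume.restrict
        {x : Fin 4 → ℝ | ∀ i, x i ∈ Set.Ioc (0 : ℝ) (0 + 1)}) := by
    refine measurePreserving_subtype_coe ?_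
    have := measurableSet_Q
    rw [← Q_eq] at this
    exact this
  have h3 := h2.comp h1
  have h4 : {x : Fin 4 → ℝ | ∀ i, x i ∈ Set.Ioc (0 : ℝ) (0 + 1)} = Q := Q_eq
  rw [h4] at h3
  exact h3

lemma mFourier_rep (k : Fin 4 → ℤ) (z : UnitAddTorus (Fin 4)) :
    UnitAddTorus.mFourier (-k) z = conj (ex (fun i => (k i : ℝ)) (rep z)) := by
  have hz : z = fun i => ((rep z i : ℝ) : UnitAddCircle) := by
    have := (UnitAddTorus.measurableEquivPiIoc (fun _ : Fin 4 => (0 : ℝ))).symm_apply_apply z
    rw [UnitAddTorus.coe_symm_measurableEquivPiIoc_apply] at this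
    exact this.symm
  rw [UnitAddTorus.mFourier_neg]
  congr 1
  conv_lhs => rw [hz]
  simp only [UnitAddTorus.mFourier, ContinuousMap.coe_mk, fourier_coe_apply, Complex.ofReal_one,
    div_one]
  rw [← Complex.exp_sum]
  unfold ex
  congr 1
  push_cast
  rw [Finset.mul_sum]
  refine Finset.sum_congr rfl fun i _ => ?_
  ring

/-- Uniqueness of Fourier coefficients on the unit cell. -/
lemma fourier_unique {g : (Fin 4 → ℝ) → ℂ} (hg : MemLp g 2 (volume.restrict Q))
    (h : ∀ k : Fin 4 → ℤ, ∫ x in Q, conj (ex (fun i => (k i : ℝ)) x) * g x = 0) :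
    g =ᵐ[volume.restrict Q] 0 := by
  have hG : MemLp (g ∘ rep) 2 (volume : Measure (UnitAddTorus (Fin 4))) :=
    hg.comp_measurePreserving measurePreserving_rep
  set G := hG.toLp with hGdef
  have hcoef : ∀ k, UnitAddTorus.mFourierBasis.repr G k = 0 := by
    intro k
    rw [UnitAddTorus.mFourierBasis_repr]
    unfold UnitAddTorus.mFourierCoeff
    have h1 : ∫ t, UnitAddTorus.mFourier (-k) t • G t
        = ∫ t, (fun x => conj (ex (fun i => (k i : ℝ)) x) * g x) (rep t) := by
      refine integral_congr_ae ?_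
      filter_upwards [hG.coeFn_toLp] with t ht
      rw [hGdef, ht, mFourier_rep, smul_eq_mul]
      rfl
    rw [h1]
    have h2 : AEStronglyMeasurable (fun x => conj (ex (fun i => (k i : ℝ)) x) * g x)
        (Measure.map rep (volume : Measure (UnitAddTorus (Fin 4)))) := by
      rw [measurePreserving_rep.map_eq]
      refine AEStronglyMeasurable.mul ?_ hg.1
      exact (Complex.continuous_conj.comp (continuous_ex _)).aestronglyMeasurable
    rw [← integral_map measurePreserving_rep.measurable.aemeasurable h2,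
      measurePreserving_rep.map_eq]
    exact h k
  have hG0 : G = 0 := by
    have : UnitAddTorus.mFourierBasis.repr G = 0 := by
      ext k
      rw [hcoef k]
      rfl
    exact (LinearIsometryEquiv.map_eq_zero_iff _).1 this
  have h3 : eLpNorm (g ∘ rep) 2 (volume : Measure (UnitAddTorus (Fin 4))) = 0 := by
    have h4 : (g ∘ rep) =ᵐ[volume] 0 := by
      have h5 := hG.coeFn_toLp
      rw [← hGdef, hG0] at h5
      exact h5.symm.trans (Lp.coeFn_zero _ _ _)
    rw [eLpNorm_congr_ae h4]
    simp
  rw [eLpNorm_comp_measurePreserving hg.1 measurePreserving_rep] at h3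
  exact (eLpNorm_eq_zero_iff hg.1 (by norm_num)).1 h3

end Pool.Agent.Helper66.WS
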