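import Mathlib
import Pool.Agent.Helper66.WS.Torus

set_option autoImplicit false

open Finset MeasureTheory
open scoped ENNReal ComplexConjugate

namespace Pool.Agent.Helper66.WS

/-- integer vector as a real vector -/
def iv (n : Fin 4 → ℤ) : Fin 4 → ℝ := fun i => (n i : ℝ)

/-- translate of the unit cell -/
def Qn (n : Fin 4 → ℤ) : Set (Fin 4 → ℝ) := {x | x - iv n ∈ Q}

lemma measurableSet_Qn (n : Fin 4 → ℤ) : MeasurableSet (Qn n) :=
  (measurable_id.sub_const (iv n)) measurableSet_Q

lemma exists_cell (x : Fin 4 → ℝ) : ∃ n : Fin 4 → ℤ, x ∈ Qn n := by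
  refine ⟨fun i => ⌈x i⌉ - 1, fun i => ?_⟩
  simp only [iv, Pi.sub_apply]
  push_cast
  constructor
  · linarith [Int.ceil_lt_add_one (x i)]
  · linarith [Int.le_ceil (x i)]

lemma Qn_disjoint {m n : Fin 4 → ℤ} (h : m ≠ n) : Disjoint (Qn m) (Qn n) := by
  rw [Set.disjoint_left]
  intro x hx hx'
  apply h
  funext i
  have h1 := hx i
  have h2 := hx' i
  simp only [iv, Pi.sub_apply, Set.mem_Ioc] at h1 h2
  have h3 : (m i : ℝ) < n i + 1 := by linarith [h1.1, h2.2]
  have h4 : (n i : ℝ) < m i + 1 := by linarith [h1.2, h2.1]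
  have h5 : m i < n i + 1 := by exact_mod_cast h3
  have h6 : n i < m i + 1 := by exact_mod_cast h4
  omega

lemma Om_subset_cells : Om ⊆ ⋃ n ∈ Bx, Qn n := by
  intro x hx
  obtain ⟨n, hn⟩ := exists_cell x
  rw [Set.mem_iUnion₂]
  refine ⟨n, ?_, hn⟩
  refine mem_Bx hn ?_
  have : (x - iv n) + (fun i => (n i : ℝ)) = x := by
    funext i
    simp [iv]
  rw [this]
  exact hx

lemma measurePreserving_add (n : Fin 4 → ℤ) :
    MeasurePreserving (fun x : Fin 4 → ℝ => x + iv n) volume volume :=
  measurePreserving_add_right volume (iv n)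

/-- Folding an integral over `Om`. -/
lemma fold {F : (Fin 4 → ℝ) → ℂ} (hF : Integrable F) (h0 : ∀ x, x ∉ Om → F x = 0) :
    ∫ x, F x = ∫ x in Q, ∑ n ∈ Bx, F (x + iv n) := by
  have h1 : ∫ x, F x = ∫ x in ⋃ n ∈ Bx, Qn n, F x := by
    refine (setIntegral_eq_integral_of_forall_compl_eq_zero ?_).symm
    intro x hx
    exact h0 x (fun h => hx (Om_subset_cells h))
  rw [h1, integral_biUnion_finset Bx (fun n _ => measurableSet_Qn n)
    (fun m _ n _ hmn => Qn_disjoint hmn) (fun n _ => hF.integrableOn)]
  have h2 : ∀ n : Fin 4 → ℤ, ∫ x in Qn n, F x = ∫ x in Q, F (x + iv n) := by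
    intro n
    have h3 := (measurePreserving_add n).setIntegral_preimage_emb
      (measurableEmbedding_addRight (iv n)) F (Qn n)
    rw [← h3]
    congr 2
    ext x
    simp [Qn]
  simp only [h2]
  rw [integral_finset_sum]
  intro n _
  exact (hF.comp_add_right (iv n)).integrableOn

lemma measurable_bounded_Om : volume Om < ∞ := by
  have h : Om ⊆ Set.Icc (fun _ => (-1 : ℝ)) (fun _ => 12) := by
    intro x hx
    have := Om_bounds hx
    exact ⟨fun i => by linarith [(this i).1], fun i => (this i).2.le⟩
  exact lt_of_le_of_lt (measure_mono h) (isCompact_Icc.measure_lt_top)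

lemma volume_Q : volume Q = 1 := by
  have h : Q = Set.univ.pi (fun _ => Set.Ioc (0 : ℝ) 1) := by
    ext x; simp [Q]
  rw [h, Real.volume_pi_Ioc]
  simp

lemma ex_shift (k : Fin 4 → ℤ) (i j : Fin 6) (x : Fin 4 → ℝ) (n : Fin 4 → ℤ) :
    ex (iv k + (3 : ℝ)⁻¹ • iv (gg i - gg j)) (x + iv n)
      = ex (iv k + (3 : ℝ)⁻¹ • iv (gg i - gg j)) x * χ (pr (gg i - gg j) (fun a => (n a : ZMod 3))) := by
  rw [ex_add_right]
  congr 1
  have h1 : pr (gg i - gg j) (fun a => (n a : ZMod 3))
      = ((∑ a, (gg i - gg j) a * n a : ℤ) : ZMod 3) := by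
    simp only [pr]
    push_cast
    rfl
  rw [h1, χ_int]
  unfold ex
  rw [Complex.exp_eq_exp_iff_exists_int]
  refine ⟨∑ a, k a * n a, ?_⟩
  simp only [iv, Pi.add_apply, Pi.smul_apply, smul_eq_mul, add_mul, Finset.sum_add_distrib]
  push_cast
  have : ∑ a, (3 : ℂ)⁻¹ * ((gg i - gg j) a : ℂ) * (n a : ℂ)
      = (∑ a, ((gg i - gg j) a : ℂ) * (n a : ℂ)) / 3 := by
    rw [Finset.sum_div]
    refine Finset.sum_congr rfl fun a _ => ?_
    ring
  rw [this]
  ring

open Classical in
/-- Integral of an exponential over `Om`. -/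
lemma integral_Om (k : Fin 4 → ℤ) (i j : Fin 6) :
    ∫ x in Om, ex (iv k + (3 : ℝ)⁻¹ • iv (gg i - gg j)) x
      = if k = 0 ∧ i = j then 6 else 0 := by
  set l := iv k + (3 : ℝ)⁻¹ • iv (gg i - gg j) with hl
  have hint : Integrable (Om.indicator (ex l)) := by
    rw [integrable_indicator_iff measurableSet_Om]
    refine IntegrableOn.of_bound measurable_bounded_Om (continuous_ex l).aestronglyMeasurable 1 ?_
    exact Filter.Eventually.of_forall fun x => (norm_ex l x).le
  rw [← integral_indicator measurableSet_Om, fold hint (fun x hx => Set.indicator_of_notMem hx _)]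
  have h1 : ∀ x ∈ Q, ∑ n ∈ Bx, Om.indicator (ex l) (x + iv n)
      = ex l x * ∑ m : Fin 6, χ (pr (gg i - gg j) (vv m - cc x)) := by
    intro x hx
    rw [← fibre_sum hx (fun m => χ (pr (gg i - gg j) m)), Finset.mul_sum]
    refine Finset.sum_congr rfl fun n _ => ?_
    rw [Set.indicator_apply]
    change (if (x + fun i => (n i : ℝ)) ∈ Om then _ else _) = _
    split_ifs
    · exact ex_shift k i j x n
    · rw [mul_zero]
  rw [setIntegral_congr_fun measurableSet_Q h1]
  by_cases hij : i = j
  · subst hij
    have h2 : ∀ x, ∑ m : Fin 6, χ (pr (gg i - gg i) (vv m - cc x)) = 6 := by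
      intro x
      have : ∀ m : Fin 6, χ (pr (gg i - gg i) (vv m - cc x)) = 1 := by
        intro m
        rw [pr_sub_left, sub_self, χ_zero]
      simp only [this]
      simp
    simp only [h2]
    rw [integral_mul_const]
    have hl' : l = iv k := by
      rw [hl, sub_self]
      have : iv (0 : Fin 4 → ℤ) = 0 := by funext a; simp [iv]
      rw [this, smul_zero, add_zero]
    rw [hl']
    by_cases hk : k = 0
    · subst hk
      simp only [true_and, if_true]
      have : ∀ x, ex (iv 0) x = 1 := by
        intro x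
        simp [ex, iv]
      simp only [this]
      rw [setIntegral_const, measureReal_def, volume_Q]
      simp
    · rw [if_neg (fun h => hk h.1)]
      -- orthogonality on the unit cell, computed as a product of one-dimensional integrals
      have h3 : ∫ x in Q, ex (iv k) x = 0 := by
        have hQ : Q = Set.univ.pi (fun _ => Set.Ioc (0 : ℝ) 1) := by
          ext x; simp [Q]
        have h4 : ∀ x, ex (iv k) x
            = ∏ a, Complex.exp (2 * Real.pi * Complex.I * (k a * x a)) := by
          intro x
          rw [← Complex.exp_sum]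
          unfold ex
          congr 1
          simp only [iv]
          push_cast
          rw [Finset.mul_sum]
        rw [hQ, volume_pi, Measure.restrict_pi_pi]
        simp only [h4]
        rw [integral_fintype_prod_eq_prod (𝕜 := ℂ)
          (fun (a : Fin 4) (t : ℝ) => Complex.exp (2 * Real.pi * Complex.I * (k a * t)))]
        obtain ⟨a, ha⟩ := Function.ne_iff.1 hk
        refine Finset.prod_eq_zero (Finset.mem_univ a) ?_
        rw [← intervalIntegral.integral_of_le zero_le_one]
        have hc : (2 * Real.pi * Complex.I * k a : ℂ) ≠ 0 := by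
          have : ((k a : ℤ) : ℂ) ≠ 0 := by exact_mod_cast ha
          have h5 : (Real.pi : ℂ) ≠ 0 := by exact_mod_cast Real.pi_ne_zero
          simp [Complex.I_ne_zero, this, h5]
        have h6 := integral_exp_mul_complex (a := 0) (b := 1) hc
        have h7 : ∀ t : ℝ, Complex.exp (2 * Real.pi * Complex.I * (k a * t))
            = Complex.exp (2 * Real.pi * Complex.I * k a * t) := by
          intro t
          congr 1
          ring
        simp only [h7]
        rw [h6]
        have h8 : Complex.exp (2 * Real.pi * Complex.I * k a * (1 : ℝ)) = 1 := by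
          rw [Complex.exp_eq_one_iff]
          exact ⟨k a, by push_cast; ring⟩
        rw [h8]
        simp
      rw [h3, zero_mul]
  · rw [if_neg (fun h => hij h.2)]
    have h2 : ∀ x, ∑ m : Fin 6, χ (pr (gg i - gg j) (vv m - cc x)) = 0 := by
      intro x
      have : ∀ m : Fin 6, χ (pr (gg i - gg j) (vv m - cc x))
          = χ (pr (gg i - gg j) (vv m)) * χ (-(pr (gg i - gg j) (cc x))) := by
        intro m
        rw [pr_sub, sub_eq_add_neg, χ_add]
      simp only [this]
      rw [← Finset.sum_mul, row_orth i j hij, zero_mul]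
    simp only [h2, mul_zero, integral_zero]

lemma volume_Om : volume Om = 6 := by
  have h := integral_Om 0 0 0
  simp only [true_and, if_true] at h
  have h1 : ∀ x, ex (iv 0 + (3 : ℝ)⁻¹ • iv (gg 0 - gg 0)) x = 1 := by
    intro x
    simp [ex, iv]
  simp only [h1] at h
  rw [setIntegral_const, measureReal_def] at h
  simp only [Complex.real_smul, mul_one] at h
  have h2 : (volume Om).toReal = 6 := by exact_mod_cast h
  rw [← ENNReal.ofReal_toReal measurable_bounded_Om.ne, h2]
  simp

end Pool.Agent.Helper66.WS
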