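import Mathlib
import Pool.Agent.Helper66.WS.Fold

set_option autoImplicit false

open Finset MeasureTheory
open scoped ENNReal ComplexConjugate

namespace Pool.Agent.Helper66.WS

lemma iv_zero : iv (0 : Fin 4 → ℤ) = 0 := by funext a; simp [iv]

lemma ex_iv_shift (k : Fin 4 → ℤ) (x : Fin 4 → ℝ) (n : Fin 4 → ℤ) :
    ex (iv k) (x + iv n) = ex (iv k) x := by
  have h := ex_shift k 0 0 x n
  rw [sub_self, iv_zero, smul_zero, add_zero] at h
  rw [h]
  have : pr 0 (fun a => (n a : ZMod 3)) = 0 := by simp [pr]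
  rw [this, χ_zero, mul_one]

lemma ex_g_shift (i : Fin 6) (x : Fin 4 → ℝ) (n : Fin 4 → ℤ) :
    ex ((3 : ℝ)⁻¹ • iv (gg i)) (x + iv n)
      = ex ((3 : ℝ)⁻¹ • iv (gg i)) x * χ (pr (gg i) (fun a => (n a : ZMod 3))) := by
  have h := ex_shift 0 i 0 x n
  rw [gg_zero, sub_zero, iv_zero, zero_add] at h
  exact h

lemma conj_χ (a : ZMod 3) : conj (χ a) = χ (-a) := by
  unfold χ
  exact (AddChar.map_neg_eq_conj _ _).symm

lemma shift_unique {x : Fin 4 → ℝ} {n n' : Fin 4 → ℤ} (h : x + iv n ∈ Om) (h' : x + iv n' ∈ Om)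
    (hnn : (fun a => (n a : ZMod 3)) = fun a => (n' a : ZMod 3)) : n = n' := by
  obtain ⟨k, hk⟩ := exists_unique_shift (Om_subset_W h)
  have h0 : (0 : Fin 4 → ℤ) = k := by
    rw [← hk 0]
    have : (fun i => ((3 * (0 : Fin 4 → ℤ) i : ℤ) : ℝ)) = 0 := by funext i; simp
    rw [this, add_zero]
    exact h
  have h2 : ∀ i, ∃ q : ℤ, n' i = n i + 3 * q := by
    intro i
    have h3 : ((n i : ℤ) : ZMod 3) = ((n' i : ℤ) : ZMod 3) := congrFun hnn i
    rw [ZMod.intCast_eq_intCast_iff_dvd_sub] at h3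
    obtain ⟨c, hc⟩ := h3
    refine ⟨c, ?_⟩
    push_cast at hc
    omega
  choose q hq using h2
  have h3 : q = k := by
    rw [← hk q]
    have : (x + iv n) + (fun i => ((3 * q i : ℤ) : ℝ)) = x + iv n' := by
      funext i
      simp only [iv, Pi.add_apply]
      rw [hq i]
      push_cast
      ring
    rw [this]
    exact h'
  funext i
  rw [hq i, h3, ← h0]
  simp

lemma integrable_of_memLp {f : (Fin 4 → ℝ) → ℂ} (hf : MemLp f 2 volume)
    (h0 : ∀ x, x ∉ Om → f x = 0) : Integrable f := by
  have h1 : f = Om.indicator f := by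
    funext x
    by_cases hx : x ∈ Om
    · rw [Set.indicator_of_mem hx]
    · rw [Set.indicator_of_notMem hx, h0 x hx]
  rw [h1, integrable_indicator_iff measurableSet_Om]
  have : IsFiniteMeasure (volume.restrict Om) :=
    ⟨by rw [Measure.restrict_apply_univ]; exact measurable_bounded_Om⟩
  exact (hf.restrict Om).integrable (by norm_num)

lemma memLp_ex_mul {f : (Fin 4 → ℝ) → ℂ} {μ : Measure (Fin 4 → ℝ)} (hf : MemLp f 2 μ)
    (l : Fin 4 → ℝ) : MemLp (fun x => conj (ex l x) * f x) 2 μ := by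
  refine hf.congr_norm ?_ ?_
  · exact ((Complex.continuous_conj.comp (continuous_ex l)).aestronglyMeasurable).mul hf.1
  · refine Filter.Eventually.of_forall fun x => ?_
    simp [norm_ex]

/-- Completeness of the exponentials with frequencies in `Z^4 + Γ/3` on `Om`. -/
theorem completeness {f : (Fin 4 → ℝ) → ℂ} (hf : MemLp f 2 volume)
    (h0 : ∀ x, x ∉ Om → f x = 0)
    (horth : ∀ (k : Fin 4 → ℤ) (i : Fin 6),
      ∫ x, conj (ex (iv k + (3 : ℝ)⁻¹ • iv (gg i)) x) * f x = 0) :
    f =ᵐ[volume] 0 := by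
  have hfi := integrable_of_memLp hf h0
  set G : Fin 6 → (Fin 4 → ℝ) → ℂ := fun i x =>
    ∑ n ∈ Bx, conj (ex ((3 : ℝ)⁻¹ • iv (gg i)) (x + iv n)) * f (x + iv n) with hG
  have hGmem : ∀ i, MemLp (G i) 2 (volume.restrict Q) := by
    intro i
    refine memLp_finsetSum Bx fun n _ => ?_
    have h1 := memLp_ex_mul hf ((3 : ℝ)⁻¹ • iv (gg i))
    exact (h1.comp_measurePreserving (measurePreserving_add n)).restrict Q
  have hG0 : ∀ i, G i =ᵐ[volume.restrict Q] 0 := by
    intro i
    refine fourier_unique (hGmem i) fun k => ?_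
    rw [← horth k i]
    have hint : Integrable (fun x => conj (ex (iv k + (3 : ℝ)⁻¹ • iv (gg i)) x) * f x) := by
      refine integrable_of_memLp (memLp_ex_mul hf _) ?_
      intro x hx
      rw [h0 x hx, mul_zero]
    rw [fold hint (fun x hx => by rw [h0 x hx, mul_zero])]
    refine setIntegral_congr_fun measurableSet_Q fun x _ => ?_
    simp only [hG, Finset.mul_sum]
    refine Finset.sum_congr rfl fun n _ => ?_
    rw [ex_add_left, map_mul, ex_iv_shift]
    change conj (ex (iv k) x) * _ = _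
    ring
  -- pointwise vanishing
  have hpt : ∀ᵐ x ∂(volume.restrict Q), ∀ n ∈ Bx, f (x + iv n) = 0 := by
    have hall : ∀ᵐ x ∂(volume.restrict Q), ∀ i, G i x = 0 := by
      rw [ae_all_iff]
      exact hG0
    filter_upwards [hall] with x hx n0 hn0
    by_cases hOm : x + iv n0 ∈ Om
    swap
    · exact h0 _ hOm
    -- the weights
    have h1 : ∀ i, ∑ n ∈ Bx, χ (-pr (gg i) (fun a => (n a : ZMod 3))) * f (x + iv n) = 0 := by
      intro i
      have h2 := hx i
      simp only [hG, ex_g_shift, map_mul, conj_χ] at h2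
      have h3 : ∑ n ∈ Bx, conj (ex ((3 : ℝ)⁻¹ • iv (gg i)) x)
          * (χ (-pr (gg i) (fun a => (n a : ZMod 3))) * f (x + iv n)) = 0 := by
        rw [← h2]
        refine Finset.sum_congr rfl fun n _ => ?_
        ring
      rw [← Finset.mul_sum] at h3
      rcases mul_eq_zero.1 h3 with h4 | h4
      · exfalso
        have h5 := norm_ex ((3 : ℝ)⁻¹ • iv (gg i)) x
        have h6 : ex ((3 : ℝ)⁻¹ • iv (gg i)) x = 0 := by
          simpa using h4
        rw [h6] at h5
        simp at h5
      · exact h4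
    have h2 : ∑ i : Fin 6, χ (pr (gg i) (fun a => (n0 a : ZMod 3)))
        * ∑ n ∈ Bx, χ (-pr (gg i) (fun a => (n a : ZMod 3))) * f (x + iv n) = 0 := by
      refine Finset.sum_eq_zero fun i _ => ?_
      rw [h1 i, mul_zero]
    have h3 : ∑ n ∈ Bx, (∑ i : Fin 6, χ (pr (gg i)
        ((fun a => (n0 a : ZMod 3)) - (fun a => (n a : ZMod 3))))) * f (x + iv n) = 0 := by
      rw [← h2]
      simp only [Finset.mul_sum, Finset.sum_mul]
      rw [Finset.sum_comm]
      refine Finset.sum_congr rfl fun i _ => Finset.sum_congr rfl fun n _ => ?_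
      rw [pr_sub, sub_eq_add_neg, χ_add]
      ring
    rw [Finset.sum_eq_single n0] at h3
    · rw [sub_self] at h3
      have h4 : ∑ i : Fin 6, χ (pr (gg i) 0) = 6 := by
        have : ∀ i, χ (pr (gg i) 0) = 1 := by
          intro i
          have : pr (gg i) 0 = 0 := by simp [pr]
          rw [this, χ_zero]
        simp only [this]
        simp
      rw [h4] at h3
      rcases mul_eq_zero.1 h3 with h5 | h5
      · norm_num at h5
      · exact h5
    · intro n _ hne
      by_cases hn : x + iv n ∈ Om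
      · have hl := Om_subset_W hOm
        have hk := Om_subset_W hn
        have e0 : cc (x + iv n0) = cc x + fun a => (n0 a : ZMod 3) := cc_add_int x n0
        have e1 : cc (x + iv n) = cc x + fun a => (n a : ZMod 3) := cc_add_int x n
        obtain ⟨l, hl⟩ := hl
        obtain ⟨k, hk⟩ := hk
        have hkl : k ≠ l := by
          rintro rfl
          apply hne
          refine shift_unique hn hOm ?_
          have : cc x + (fun a => (n a : ZMod 3)) = cc x + fun a => (n0 a : ZMod 3) := by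
            rw [← e0, ← e1, ← hl, ← hk]
          exact add_left_cancel this
        have e2 : (fun a => (n0 a : ZMod 3)) - (fun a => (n a : ZMod 3)) = vv l - vv k := by
          rw [hl, hk, e0, e1]
          abel
        rw [e2, col_orth k l hkl, zero_mul]
      · rw [h0 _ hn, mul_zero]
    · intro h
      exact absurd hn0 h
  -- conclusion
  have hcell : ∀ n ∈ Bx, volume (Qn n ∩ {x | f x ≠ 0}) = 0 := by
    intro n hn
    rw [← (measurePreserving_add n).measure_preimage_emb (measurableEmbedding_addRight (iv n))]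
    rw [ae_restrict_iff' measurableSet_Q] at hpt
    have h1 : (fun x => x + iv n) ⁻¹' (Qn n ∩ {x | f x ≠ 0})
        ⊆ {x | ¬ (x ∈ Q → ∀ n ∈ Bx, f (x + iv n) = 0)} := by
      intro x hx hc
      have h2 : x ∈ Q := by
        have := hx.1
        simpa [Qn] using this
      exact hx.2 (hc h2 n hn)
    exact measure_mono_null h1 hpt
  have h2 : {x | f x ≠ 0} ⊆ ⋃ n ∈ Bx, (Qn n ∩ {x | f x ≠ 0}) := by
    intro x hx
    have hOm : x ∈ Om := by
      by_contra hc
      exact hx (h0 x hc)
    have := Om_subset_cells hOm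
    rw [Set.mem_iUnion₂] at this ⊢
    obtain ⟨n, hn, hxn⟩ := this
    exact ⟨n, hn, hxn, hx⟩
  have h3 : volume {x | f x ≠ 0} = 0 := by
    refine measure_mono_null h2 ?_
    exact (measure_biUnion_null_iff (Finset.countable_toSet Bx)).2 hcell
  exact h3

end Pool.Agent.Helper66.WS
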