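import Mathlib
import Pool.Agent.Helper66.WS.Fold

set_option autoImplicit false

open Finset MeasureTheory
open scoped ENNReal

namespace Pool.Agent.Helper66.WS

/-! ### A density lemma -/

lemma density {Ω S : Set (Fin 4 → ℝ)} (hΩ : MeasurableSet Ω) (hS : MeasurableSet S) {r : ℝ}
    (hr : 0 < r) (hΩr : Ω ⊆ Metric.closedBall 0 r) (hSr : S ⊆ Metric.closedBall 0 r)
    {T : Set (Fin 4 → ℝ)} (hT : T.Countable)
    (htile : ∀ᵐ ξ, ∑' t : T, Ω.indicator (fun _ => (1 : ℝ≥0∞)) (ξ - (t : Fin 4 → ℝ)) = 1)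
    (hcov : ∀ᵐ ξ, ∃ t ∈ T, ξ - t ∈ S) : volume Ω ≤ volume S := by
  have hTc : Countable T := hT.to_subtype
  have hfin : ∀ {A : Set (Fin 4 → ℝ)}, A ⊆ Metric.closedBall 0 r → volume A < ∞ := by
    intro A hA
    exact lt_of_le_of_lt (measure_mono hA) measure_closedBall_lt_top
  have hmeas : ∀ {A : Set (Fin 4 → ℝ)} (_ : MeasurableSet A) (t : Fin 4 → ℝ),
      Measurable (fun ξ => A.indicator (fun _ => (1 : ℝ≥0∞)) (ξ - t)) := by
    intro A hA t
    exact (measurable_const.indicator hA).comp (measurable_id.sub_const t)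
  -- integral of translated indicator over a set
  have hint : ∀ {A : Set (Fin 4 → ℝ)} (_ : MeasurableSet A) (R : Set (Fin 4 → ℝ))
      (_ : MeasurableSet R) (t : Fin 4 → ℝ),
      ∫⁻ ξ in R, A.indicator (fun _ => (1 : ℝ≥0∞)) (ξ - t) = volume (R ∩ {ξ | ξ - t ∈ A}) := by
    intro A hA R hR t
    have h1 : (fun ξ => A.indicator (fun _ => (1 : ℝ≥0∞)) (ξ - t))
        = ({ξ | ξ - t ∈ A}).indicator (fun _ => (1 : ℝ≥0∞)) := by
      funext ξ
      rfl
    have h2 : MeasurableSet {ξ : Fin 4 → ℝ | ξ - t ∈ A} := (measurable_id.sub_const t) hA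
    rw [h1, lintegral_indicator h2, lintegral_one, Measure.restrict_apply_univ,
      Measure.restrict_apply' hR, Set.inter_comm]
  have hvol : ∀ {A : Set (Fin 4 → ℝ)} (t : Fin 4 → ℝ), volume {ξ | ξ - t ∈ A} = volume A := by
    intro A t
    have := (measurePreserving_sub_right (volume : Measure (Fin 4 → ℝ)) t).measure_preimage_emb
      (MeasurableEquiv.subRight t).measurableEmbedding A
    exact this
  -- main inequality
  have key : ∀ L : ℝ, 0 < L → volume Ω * volume (Metric.closedBall (0 : Fin 4 → ℝ) L)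
      ≤ volume S * volume (Metric.closedBall (0 : Fin 4 → ℝ) (L + 2 * r)) := by
    intro L hL
    set R := Metric.closedBall (0 : Fin 4 → ℝ) L with hR
    set R' := Metric.closedBall (0 : Fin 4 → ℝ) (L + 2 * r) with hR'
    have hRm : MeasurableSet R := measurableSet_closedBall
    have hRm' : MeasurableSet R' := measurableSet_closedBall
    have h1 : volume R ≤ ∑' t : T, volume (R ∩ {ξ | ξ - (t : Fin 4 → ℝ) ∈ S}) := by
      calc volume R = ∫⁻ ξ in R, 1 := by simp
        _ ≤ ∫⁻ ξ in R, ∑' t : T, S.indicator (fun _ => (1 : ℝ≥0∞)) (ξ - (t : Fin 4 → ℝ)) := by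
            refine lintegral_mono_ae ?_
            filter_upwards [ae_restrict_of_ae hcov] with ξ hξ
            obtain ⟨t, ht, hξt⟩ := hξ
            refine le_trans ?_ (ENNReal.le_tsum (⟨t, ht⟩ : T))
            rw [Set.indicator_of_mem hξt]
        _ = _ := by
            rw [lintegral_tsum (fun t => (hmeas hS _).aemeasurable)]
            exact tsum_congr fun t => hint hS R hRm _
    have h2 : ∀ t : T, volume Ω * volume (R ∩ {ξ | ξ - (t : Fin 4 → ℝ) ∈ S})
        ≤ volume S * volume (R' ∩ {ξ | ξ - (t : Fin 4 → ℝ) ∈ Ω}) := by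
      intro t
      by_cases ht : (t : Fin 4 → ℝ) ∈ Metric.closedBall (0 : Fin 4 → ℝ) (L + r)
      · have h3 : R' ∩ {ξ | ξ - (t : Fin 4 → ℝ) ∈ Ω} = {ξ | ξ - (t : Fin 4 → ℝ) ∈ Ω} := by
          refine Set.inter_eq_right.2 ?_
          intro ξ hξ
          have h4 := hΩr hξ
          rw [mem_closedBall_zero_iff] at h4 ht
          rw [hR', mem_closedBall_zero_iff]
          calc ‖ξ‖ = ‖(ξ - t) + t‖ := by rw [sub_add_cancel]
            _ ≤ ‖ξ - t‖ + ‖(t : Fin 4 → ℝ)‖ := norm_add_le _ _
            _ ≤ L + 2 * r := by linarith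
        rw [h3, hvol, mul_comm]
        refine mul_le_mul_left ?_ _
        calc volume (R ∩ {ξ | ξ - (t : Fin 4 → ℝ) ∈ S}) ≤ volume {ξ | ξ - (t : Fin 4 → ℝ) ∈ S} :=
              measure_mono Set.inter_subset_right
          _ = volume S := hvol _
      · have h3 : R ∩ {ξ | ξ - (t : Fin 4 → ℝ) ∈ S} = ∅ := by
          rw [Set.eq_empty_iff_forall_notMem]
          rintro ξ ⟨hξ, hξS⟩
          apply ht
          have h4 := hSr hξS
          rw [mem_closedBall_zero_iff] at h4 ⊢
          rw [hR, mem_closedBall_zero_iff] at hξ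
          calc ‖(t : Fin 4 → ℝ)‖ = ‖ξ - (ξ - t)‖ := by rw [sub_sub_cancel]
            _ ≤ ‖ξ‖ + ‖ξ - t‖ := norm_sub_le _ _
            _ ≤ L + r := by linarith
        rw [h3, measure_empty, mul_zero]
        exact bot_le
    have h3 : ∑' t : T, volume (R' ∩ {ξ | ξ - (t : Fin 4 → ℝ) ∈ Ω}) = volume R' := by
      calc _ = ∫⁻ ξ in R', ∑' t : T, Ω.indicator (fun _ => (1 : ℝ≥0∞)) (ξ - (t : Fin 4 → ℝ)) := by
            rw [lintegral_tsum (fun t => (hmeas hΩ _).aemeasurable)]
            exact (tsum_congr fun t => hint hΩ R' hRm' _).symm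
        _ = ∫⁻ ξ in R', 1 := lintegral_congr_ae (ae_restrict_of_ae htile)
        _ = volume R' := by simp
    calc volume Ω * volume R ≤ volume Ω * ∑' t : T, volume (R ∩ {ξ | ξ - (t : Fin 4 → ℝ) ∈ S}) := by
          exact mul_le_mul_right h1 _
      _ = ∑' t : T, volume Ω * volume (R ∩ {ξ | ξ - (t : Fin 4 → ℝ) ∈ S}) :=
          ENNReal.tsum_mul_left.symm
      _ ≤ ∑' t : T, volume S * volume (R' ∩ {ξ | ξ - (t : Fin 4 → ℝ) ∈ Ω}) :=
          ENNReal.tsum_le_tsum h2
      _ = volume S * volume R' := by rw [ENNReal.tsum_mul_left, h3]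
  -- pass to real numbers
  have ha := hfin hΩr
  have hb := hfin hSr
  have hreal : ∀ L : ℝ, 0 < L →
      (volume Ω).toReal * (2 * L) ^ 4 ≤ (volume S).toReal * (2 * (L + 2 * r)) ^ 4 := by
    intro L hL
    have h1 := key L hL
    rw [Real.volume_pi_closedBall _ hL.le, Real.volume_pi_closedBall _ (by linarith)] at h1
    simp only [Fintype.card_fin] at h1
    have h2 := ENNReal.toReal_mono (ENNReal.mul_lt_top hb ENNReal.ofReal_lt_top).ne h1
    rw [ENNReal.toReal_mul, ENNReal.toReal_mul, ENNReal.toReal_ofReal (by positivity),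
      ENNReal.toReal_ofReal (by positivity)] at h2
    exact h2
  have hlim : Filter.Tendsto (fun n : ℕ => (volume S).toReal * (1 + 2 / ((n : ℝ) + 1)) ^ 4)
      Filter.atTop (nhds ((volume S).toReal * (1 + 0) ^ 4)) := by
    have h1 : Filter.Tendsto (fun n : ℕ => 2 / ((n : ℝ) + 1)) Filter.atTop (nhds 0) := by
      have := (tendsto_one_div_add_atTop_nhds_zero_nat (𝕜 := ℝ)).const_mul 2
      simp only [mul_zero] at this
      refine this.congr fun n => ?_
      ring
    exact ((h1.const_add 1).pow 4).const_mul _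
  have hle : (volume Ω).toReal ≤ (volume S).toReal * (1 + 0) ^ 4 := by
    refine ge_of_tendsto' hlim fun n => ?_
    have hn : (0 : ℝ) < (n : ℝ) + 1 := by positivity
    have h1 := hreal (((n : ℝ) + 1) * r) (by positivity)
    have h2 : (2 * (((n : ℝ) + 1) * r + 2 * r)) ^ 4
        = (1 + 2 / ((n : ℝ) + 1)) ^ 4 * (2 * (((n : ℝ) + 1) * r)) ^ 4 := by
      rw [← mul_pow]
      congr 1
      field_simp
    rw [h2] at h1
    refine le_of_mul_le_mul_right (a := (2 * (((n : ℝ) + 1) * r)) ^ 4) ?_ (by positivity)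
    linarith [h1]
  have h1 : (1 + 0 : ℝ) ^ 4 = 1 := by norm_num
  rw [h1, mul_one] at hle
  exact (ENNReal.toReal_le_toReal ha.ne hb.ne).1 hle

/-! ### The window argument -/

/-- window offsets -/
noncomputable def wo (m : Fin 4 → Fin 3) : Fin 4 → ℝ := fun i => (m i : ℕ) / 256

/-- the exceptional set -/
def BoxOut : Set (Fin 4 → ℝ) :=
  {x | ∀ i, x i ∈ Set.Ico (9 - 1 / 512 - 2 / 256 : ℝ) (12 - 1 / 512)}

def BoxIn : Set (Fin 4 → ℝ) :=
  {x | ∀ i, x i ∈ Set.Ico (9 - 1 / 512 : ℝ) (12 - 1 / 512 - 2 / 256)}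

def C0 : Set (Fin 4 → ℝ) :=
  {x | ∀ i, x i ∈ Set.Ico (-1 / 512 - 2 / 256 : ℝ) (1 / 512)}

def C9 : Set (Fin 4 → ℝ) :=
  {x | ∀ i, x i ∈ Set.Ico (9 - 1 / 512 - 2 / 256 : ℝ) (9 + 1 / 512)}

def Exc : Set (Fin 4 → ℝ) := (BoxOut \ BoxIn) ∪ (C0 ∪ C9)

lemma wo_bounds (m : Fin 4 → Fin 3) (i : Fin 4) : 0 ≤ wo m i ∧ wo m i ≤ 2 / 256 := by
  unfold wo
  have h1 : ((m i : ℕ) : ℝ) ≤ 2 := by
    have : (m i : ℕ) ≤ 2 := by omega
    exact_mod_cast this
  constructor
  · positivity
  · linarith

lemma cc_add_wo (x : Fin 4 → ℝ) (m : Fin 4 → Fin 3) :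
    cc (x + wo m) = cc x + fun i => ((m i : ℕ) : ZMod 3) := by
  funext i
  simp only [cc, Pi.add_apply, wo]
  have h : 256 * (x i + ((m i : ℕ) : ℝ) / 256) + 1 / 2
      = 256 * x i + 1 / 2 + (((m i : ℕ) : ℤ) : ℝ) := by
    push_cast; ring
  rw [h, Int.floor_add_intCast]
  push_cast
  rfl

lemma notK1_small {x : Fin 4 → ℝ} (h : x ∈ K ∧ x ∉ K1) :
    ∀ i, x i ∈ Set.Ico (-1 / 512 : ℝ) (1 / 512) :=
  jD_small (not_K1_mem_jD h.1 h.2)

open Classical in
lemma window_out {x : Fin 4 → ℝ} (hE : x ∉ Exc) (hout : x ∉ BoxOut) (m : Fin 4 → Fin 3) :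
    x + wo m ∉ Om := by
  intro hc
  rcases hc with hc | hc
  · apply hout
    intro i
    have h1 := (K1_subset_K hc).2 i
    have h2 := wo_bounds m i
    simp only [nine, Pi.sub_apply, Pi.add_apply, Set.mem_Ico] at h1
    constructor
    · linarith [h1.1, h2.2]
    · linarith [h1.2, h2.1]
  · apply hE
    right; left
    intro i
    have h1 := notK1_small hc i
    have h2 := wo_bounds m i
    simp only [Pi.add_apply, Set.mem_Ico] at h1
    constructor
    · linarith [h1.1, h2.2]
    · linarith [h1.2, h2.1]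

lemma window_in {x : Fin 4 → ℝ} (hE : x ∉ Exc) (hout : x ∈ BoxOut) (m : Fin 4 → Fin 3) :
    x + wo m ∈ Om ↔ (cc x + fun i => ((m i : ℕ) : ZMod 3)) ∈ V := by
  have hin : x ∈ BoxIn := by
    by_contra hc
    exact hE (Or.inl ⟨hout, hc⟩)
  rw [← cc_add_wo]
  constructor
  · exact Om_subset_W
  · intro hV
    left
    have hK : x + wo m - nine ∈ K := by
      refine ⟨?_, ?_⟩
      · change cc (x + wo m - nine) ∈ V
        rw [cc_sub_nine]
        exact hV
      · intro i
        have h1 := hin i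
        have h2 := wo_bounds m i
        simp only [nine, Pi.sub_apply, Pi.add_apply, Set.mem_Ico] at h1 ⊢
        constructor
        · linarith [h1.1, h2.1]
        · linarith [h1.2, h2.2]
    by_contra hK1
    apply hE
    right; right
    intro i
    have h1 := notK1_small ⟨hK, hK1⟩ i
    have h2 := wo_bounds m i
    simp only [nine, Pi.sub_apply, Pi.add_apply, Set.mem_Ico] at h1
    constructor
    · linarith [h1.1, h2.2]
    · linarith [h1.2, h2.1]

open Classical in
lemma count_V (c : Fin 4 → ZMod 3) :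
    (univ.filter (fun m : Fin 4 → Fin 3 => (c + fun i => ((m i : ℕ) : ZMod 3)) ∈ V)).card = 6 := by
  have h1 : (univ.filter (fun m : Fin 4 → Fin 3 => (c + fun i => ((m i : ℕ) : ZMod 3)) ∈ V)).card
      = (univ : Finset (Fin 6)).card := by
    symm
    refine Finset.card_bij (fun k _ => fun i => (⟨(vv k i - c i).val, ZMod.val_lt _⟩ : Fin 3))
      ?_ ?_ ?_
    · intro k _
      rw [Finset.mem_filter]
      refine ⟨Finset.mem_univ _, ⟨k, ?_⟩⟩
      funext i
      simp only [Pi.add_apply]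
      rw [ZMod.natCast_val, ZMod.cast_id]
      ring
    · intro k _ k' _ h
      apply vv_injective
      funext i
      have h2 := congrFun h i
      simp only [Fin.mk.injEq] at h2
      have h3 := ZMod.val_injective 3 h2
      exact sub_left_inj.1 h3
    · intro m hm
      rw [Finset.mem_filter] at hm
      obtain ⟨k, hk⟩ := hm.2
      refine ⟨k, Finset.mem_univ _, ?_⟩
      funext i
      apply Fin.ext
      simp only
      have h2 : vv k i - c i = ((m i : ℕ) : ZMod 3) := by
        rw [hk]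
        simp
      rw [h2]
      exact ZMod.val_cast_of_lt (m i).2
  rw [h1]
  simp

lemma measurableSet_Exc : MeasurableSet Exc :=
  ((measurableSet_pibox _ _).diff (measurableSet_pibox _ _)).union
    ((measurableSet_pibox _ _).union (measurableSet_pibox _ _))

lemma volume_pibox {a b : ℝ} :
    volume {x : Fin 4 → ℝ | ∀ i, x i ∈ Set.Ico a b} = ENNReal.ofReal (b - a) ^ 4 := by
  have h : {x : Fin 4 → ℝ | ∀ i, x i ∈ Set.Ico a b} = Set.univ.pi (fun _ => Set.Ico a b) := by
    ext x; simp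
  rw [h, Real.volume_pi_Ico]
  simp

lemma volume_Exc : volume Exc < 6 := by
  have hsub : BoxIn ⊆ BoxOut := by
    intro x hx i
    have := hx i
    simp only [Set.mem_Ico] at this ⊢
    constructor <;> linarith [this.1, this.2]
  have h1 : volume (BoxOut \ BoxIn)
      = ENNReal.ofReal (3 + 2 / 256) ^ 4 - ENNReal.ofReal (3 - 2 / 256) ^ 4 := by
    rw [measure_diff hsub (measurableSet_pibox _ _).nullMeasurableSet]
    · unfold BoxOut BoxIn
      rw [volume_pibox, volume_pibox]
      norm_num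
    · unfold BoxIn
      rw [volume_pibox]
      exact (ENNReal.pow_lt_top ENNReal.ofReal_lt_top).ne
  have h2 : volume C0 = ENNReal.ofReal (3 / 256) ^ 4 := by
    unfold C0
    rw [volume_pibox]
    norm_num
  have h3 : volume C9 = ENNReal.ofReal (3 / 256) ^ 4 := by
    unfold C9
    rw [volume_pibox]
    norm_num
  have h4 : volume Exc ≤ (ENNReal.ofReal (3 + 2 / 256) ^ 4 - ENNReal.ofReal (3 - 2 / 256) ^ 4)
      + (ENNReal.ofReal (3 / 256) ^ 4 + ENNReal.ofReal (3 / 256) ^ 4) := by
    unfold Exc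
    refine le_trans (measure_union_le _ _) ?_
    rw [h1]
    refine add_le_add le_rfl (le_trans (measure_union_le _ _) ?_)
    rw [h2, h3]
  refine lt_of_le_of_lt h4 ?_
  rw [← ENNReal.ofReal_pow (by norm_num), ← ENNReal.ofReal_pow (by norm_num),
    ← ENNReal.ofReal_pow (by norm_num), ← ENNReal.ofReal_sub _ (by norm_num),
    ← ENNReal.ofReal_add (by norm_num) (by norm_num),
    ← ENNReal.ofReal_add (by norm_num) (by norm_num)]
  rw [show (6 : ℝ≥0∞) = ENNReal.ofReal 6 by simp]
  rw [ENNReal.ofReal_lt_ofReal_iff (by norm_num)]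
  norm_num

lemma closedBall_of_bounds {A : Set (Fin 4 → ℝ)} (h : ∀ x ∈ A, ∀ i, |x i| ≤ 13) :
    A ⊆ Metric.closedBall 0 13 := by
  intro x hx
  rw [mem_closedBall_zero_iff, pi_norm_le_iff_of_nonneg (by norm_num)]
  intro i
  rw [Real.norm_eq_abs]
  exact h x hx i

lemma tsum_one_unique {T : Set (Fin 4 → ℝ)} {A : Set (Fin 4 → ℝ)} {ξ : Fin 4 → ℝ}
    (h : ∑' t : T, A.indicator (fun _ => (1 : ℝ≥0∞)) (ξ - (t : Fin 4 → ℝ)) = 1) :
    ∃ t ∈ T, ξ - t ∈ A ∧ ∀ t' ∈ T, ξ - t' ∈ A → t' = t := by
  classical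
  obtain ⟨t, ht⟩ : ∃ t : T, ξ - (t : Fin 4 → ℝ) ∈ A := by
    by_contra hc
    push Not at hc
    have : ∑' t : T, A.indicator (fun _ => (1 : ℝ≥0∞)) (ξ - (t : Fin 4 → ℝ)) = 0 := by
      rw [ENNReal.tsum_eq_zero]
      intro t
      exact Set.indicator_of_notMem (hc t) _
    rw [this] at h
    exact zero_ne_one h
  refine ⟨t, t.2, ht, ?_⟩
  intro t' ht' hA
  by_contra hne
  have hne' : (⟨t', ht'⟩ : T) ≠ t := fun e => hne (congrArg Subtype.val e)
  have h1 := ENNReal.sum_le_tsum (f := fun t : T =>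
    A.indicator (fun _ => (1 : ℝ≥0∞)) (ξ - (t : Fin 4 → ℝ))) {⟨t', ht'⟩, t}
  rw [Finset.sum_pair hne', h, Set.indicator_of_mem ht, Set.indicator_of_mem hA] at h1
  norm_num at h1

/-- The set `Om` does not tile by translations. -/
theorem not_tile : ¬ ∃ T : Set (Fin 4 → ℝ), T.Countable ∧
    ∀ᵐ ξ, ∑' t : T, Om.indicator (fun _ => (1 : ℝ≥0∞)) (ξ - (t : Fin 4 → ℝ)) = 1 := by
  classical
  rintro ⟨T, hT, htile⟩
  have hcov : ∀ᵐ ξ : Fin 4 → ℝ, ∃ t ∈ T, ξ - t ∈ Exc := by
    -- all window translates are exactly tiled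
    have hall : ∀ᵐ ξ : Fin 4 → ℝ, ∀ m : Fin 4 → Fin 3,
        ∑' t : T, Om.indicator (fun _ => (1 : ℝ≥0∞)) (ξ + wo m - (t : Fin 4 → ℝ)) = 1 := by
      rw [ae_all_iff]
      intro m
      exact (measurePreserving_add_right (volume : Measure (Fin 4 → ℝ))
        (wo m)).quasiMeasurePreserving.ae htile
    filter_upwards [hall] with ξ hξ
    by_contra hc
    push Not at hc
    have hu := fun m => tsum_one_unique (hξ m)
    choose t htT htO htu using hu
    -- count the windows by tiles
    have hcard : (univ : Finset (Fin 4 → Fin 3)).card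
        = ∑ s ∈ univ.image t, (univ.filter (fun m => t m = s)).card :=
      Finset.card_eq_sum_card_image t univ
    have hsix : ∀ s ∈ univ.image t, (univ.filter (fun m => t m = s)).card = 6 := by
      intro s hs
      rw [Finset.mem_image] at hs
      obtain ⟨m0, _, rfl⟩ := hs
      have hsT := htT m0
      have hE := hc _ hsT
      have hOm0 : (ξ - t m0) + wo m0 ∈ Om := by
        have := htO m0
        rwa [add_sub_right_comm] at this
      have hout : ξ - t m0 ∈ BoxOut := by
        by_contra hno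
        exact window_out hE hno m0 hOm0
      have hfil : univ.filter (fun m => t m = t m0)
          = univ.filter (fun m : Fin 4 → Fin 3 =>
            (cc (ξ - t m0) + fun i => ((m i : ℕ) : ZMod 3)) ∈ V) := by
        ext m
        simp only [Finset.mem_filter, Finset.mem_univ, true_and]
        rw [← window_in hE hout m]
        constructor
        · intro h
          have := htO m
          rw [h, add_sub_right_comm] at this
          exact this
        · intro h
          refine (htu m _ hsT ?_).symm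
          rw [add_sub_right_comm]
          exact h
      rw [hfil]
      exact count_V _
    rw [Finset.sum_congr rfl hsix, Finset.sum_const, smul_eq_mul] at hcard
    have h81 : (univ : Finset (Fin 4 → Fin 3)).card = 81 := by
      simp
    rw [h81] at hcard
    omega
  have hOm : Om ⊆ Metric.closedBall 0 13 := by
    refine closedBall_of_bounds fun x hx i => ?_
    have := Om_bounds hx i
    rw [abs_le]
    constructor <;> linarith [this.1, this.2]
  have hExc : Exc ⊆ Metric.closedBall 0 13 := by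
    refine closedBall_of_bounds fun x hx i => ?_
    rw [abs_le]
    rcases hx with hx | hx | hx
    · have := hx.1 i
      constructor <;> linarith [this.1, this.2]
    · have := hx i
      constructor <;> linarith [this.1, this.2]
    · have := hx i
      constructor <;> linarith [this.1, this.2]
  have h1 := density measurableSet_Om measurableSet_Exc (by norm_num) hOm hExc hT htile hcov
  rw [volume_Om] at h1
  exact absurd volume_Exc (not_lt.2 h1)

end Pool.Agent.Helper66.WS
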