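import Mathlib
import Pool.Agent.Helper66.WS.Defs
import Pool.Agent.Helper66.WS.FourierL2
import Pool.Agent.Helper66.WS.Complete
import Pool.Agent.Helper66.WS.NonTile

set_option autoImplicit false

open MeasureTheory FourierTransform
open scoped ENNReal RealInnerProductSpace ComplexConjugate

namespace Pool.Agent.Helper66.WS

/-! ### Transfer to Euclidean space -/

/-- coordinates -/
def cv (x : E 4) : Fin 4 → ℝ := WithLp.ofLp x

/-- from coordinates -/
def vc (x : Fin 4 → ℝ) : E 4 := WithLp.toLp 2 x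

lemma cv_vc (x : Fin 4 → ℝ) : cv (vc x) = x := rfl
lemma vc_cv (x : E 4) : vc (cv x) = x := rfl

lemma cv_add (x y : E 4) : cv (x + y) = cv x + cv y := rfl
lemma cv_sub (x y : E 4) : cv (x - y) = cv x - cv y := rfl
lemma cv_smul (r : ℝ) (x : E 4) : cv (r • x) = r • cv x := rfl
lemma vc_sub (x y : Fin 4 → ℝ) : vc (x - y) = vc x - vc y := rfl

lemma mp_cv : MeasurePreserving cv (volume : Measure (E 4)) volume :=
  PiLp.volume_preserving_ofLp (Fin 4)

lemma mp_vc : MeasurePreserving vc volume (volume : Measure (E 4)) :=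
  PiLp.volume_preserving_toLp (Fin 4)

lemma me_cv : MeasurableEmbedding cv := (MeasurableEquiv.toLp 2 (Fin 4 → ℝ)).symm.measurableEmbedding

lemma me_vc : MeasurableEmbedding vc := (MeasurableEquiv.toLp 2 (Fin 4 → ℝ)).measurableEmbedding

lemma inner_cv (x y : E 4) : (inner ℝ x y : ℝ) = ∑ i, cv x i * cv y i := by
  rw [PiLp.inner_apply]
  refine Finset.sum_congr rfl fun i _ => ?_
  simp [cv, mul_comm]

/-- the wavelet set in Euclidean space -/
def OmE : Set (E 4) := {x | cv x ∈ Om}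

lemma measurableSet_OmE : MeasurableSet OmE := mp_cv.measurable measurableSet_Om

lemma volume_OmE : volume OmE = 6 := by
  rw [← volume_Om]
  exact mp_cv.measure_preimage measurableSet_Om.nullMeasurableSet

/-- exponential in Euclidean space -/
noncomputable def exE (l x : E 4) : ℂ := ex (cv l) (cv x)

lemma norm_exE (l x : E 4) : ‖exE l x‖ = 1 := norm_ex _ _

lemma continuous_exE (l : E 4) : Continuous (exE l) := by
  unfold exE
  exact (continuous_ex _).comp (PiLp.continuous_ofLp 2 _)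

lemma exE_eq (l x : E 4) : exE l x = Complex.exp (2 * Real.pi * Complex.I * ((inner ℝ l x : ℝ) : ℂ)) := by
  rw [inner_cv]
  rfl

lemma fourierChar_eq (v w : E 4) (z : ℂ) : (Real.fourierChar (inner ℝ v w)) • z = exE w v * z := by
  rw [exE_eq, Circle.smul_def, Real.fourierChar_apply, smul_eq_mul, real_inner_comm]
  congr 2
  push_cast
  ring

/-- the frequency set -/
def Lam : Set (E 4) := Set.range fun p : (Fin 4 → ℤ) × Fin 6 => vc (iv p.1 + (3 : ℝ)⁻¹ • iv (gg p.2))

/-- dilation by a nonzero scalar -/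
noncomputable def dil (r : ℝ) (hr : r ≠ 0) : E 4 ≃L[ℝ] E 4 :=
  (LinearEquiv.smulOfNeZero ℝ (E 4) r hr).toContinuousLinearEquiv

lemma dil_apply (r : ℝ) (hr : r ≠ 0) (x : E 4) : dil r hr x = r • x := rfl

/-- the scales `3 * 2^n` -/
noncomputable def sc (n : ℤ) : ℝ := 3 * 2 ^ n

lemma sc_pos (n : ℤ) : 0 < sc n := by unfold sc; positivity

/-- the dilation set -/
def Adil : Set (E 4 ≃L[ℝ] E 4) := Set.range fun n : ℤ => dil (sc n) (sc_pos n).ne'

lemma modulus_dil (r : ℝ) (hr : r ≠ 0) : modulus (dil r hr) = r ^ 4 := by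
  unfold modulus
  have h : ((dil r hr : E 4 ≃L[ℝ] E 4) : E 4 →ₗ[ℝ] E 4) = r • LinearMap.id := by
    ext x
    rfl
  rw [h, LinearMap.det_smul, LinearMap.det_id, mul_one]
  simp only [finrank_euclideanSpace, Fintype.card_fin, abs_pow]
  exact (by decide : Even 4).pow_abs r

lemma modulus_ne_one (n : ℤ) : modulus (dil (sc n) (sc_pos n).ne') ≠ 1 := by
  rw [modulus_dil]
  intro h
  have h1 : sc n = 1 := by
    rcases (pow_eq_one_iff_of_ne_zero (by norm_num : (4 : ℕ) ≠ 0)).1 h with h | h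
    · exact h
    · exfalso
      have := sc_pos n
      rw [h.1] at this
      norm_num at this
  unfold sc at h1
  -- 3 * 2^n = 1 impossible
  rcases le_or_gt 0 n with hn | hn
  · have : (1 : ℝ) ≤ 2 ^ n := one_le_zpow₀ (by norm_num) hn
    linarith
  · obtain ⟨k, hk⟩ : ∃ k : ℕ, n = -(k : ℤ) - 1 := ⟨(-n - 1).toNat, by omega⟩
    rw [hk] at h1
    have h2 : (3 : ℝ) = 2 ^ (k + 1) := by
      have h3 : (2 : ℝ) ^ (-(k : ℤ) - 1) * 2 ^ (k + 1) = 1 := by
        rw [← zpow_natCast (2 : ℝ) (k + 1), ← zpow_add₀ (by norm_num)]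
        have : (-(k : ℤ) - 1 + ((k + 1 : ℕ) : ℤ)) = 0 := by push_cast; ring
        rw [this, zpow_zero]
      calc (3 : ℝ) = 3 * (2 ^ (-(k : ℤ) - 1) * 2 ^ (k + 1)) := by rw [h3, mul_one]
        _ = (3 * 2 ^ (-(k : ℤ) - 1)) * 2 ^ (k + 1) := by ring
        _ = 2 ^ (k + 1) := by rw [h1, one_mul]
    have h3 : (3 : ℕ) = 2 ^ (k + 1) := by exact_mod_cast h2
    have h4 : 2 ∣ 3 := by rw [h3, pow_succ]; exact Dvd.intro_left _ rfl
    omega

/-! ### The functions on the Fourier side -/

/-- the support at scale `r` -/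
def Sr (r : ℝ) : Set (E 4) := {x | r⁻¹ • x ∈ OmE}

lemma measurableSet_Sr (r : ℝ) : MeasurableSet (Sr r) :=
  measurableSet_OmE.preimage (measurable_const_smul r⁻¹)

lemma volume_Sr {r : ℝ} (hr : 0 < r) : volume (Sr r) < ∞ := by
  have h := Measure.addHaar_preimage_smul (volume : Measure (E 4)) (inv_ne_zero hr.ne') OmE
  change volume ((fun x => r⁻¹ • x) ⁻¹' OmE) < ∞
  rw [h, volume_OmE]
  exact ENNReal.mul_lt_top ENNReal.ofReal_lt_top (by norm_num)

/-- Fourier transform of the wavelet `ψ_{λ, r}` -/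
noncomputable def gf (lam : E 4) (r : ℝ) (x : E 4) : ℂ :=
  ((r ^ 2 : ℝ) : ℂ)⁻¹ * (conj (exE lam (r⁻¹ • x)) * (Sr r).indicator (fun _ => 1) x)

lemma gf_meas (lam : E 4) (r : ℝ) : AEStronglyMeasurable (gf lam r) volume := by
  unfold gf
  refine AEStronglyMeasurable.mul aestronglyMeasurable_const (AEStronglyMeasurable.mul ?_ ?_)
  · exact ((Complex.continuous_conj.comp (continuous_exE lam)).comp
      (continuous_const_smul _)).aestronglyMeasurable
  · exact (aestronglyMeasurable_const.indicator (measurableSet_Sr r))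

lemma gf_memLp (lam : E 4) {r : ℝ} (hr : 0 < r) (p : ℝ≥0∞) : MemLp (gf lam r) p volume := by
  have h1 : MemLp ((Sr r).indicator (fun _ => ((r ^ 2 : ℝ) : ℂ)⁻¹)) p (volume : Measure (E 4)) :=
    memLp_indicator_const p (measurableSet_Sr r) _ (Or.inr (volume_Sr hr).ne)
  refine h1.congr_norm (gf_meas lam r) (Filter.Eventually.of_forall fun x => ?_)
  unfold gf
  by_cases hx : x ∈ Sr r
  · rw [Set.indicator_of_mem hx, Set.indicator_of_mem hx]
    simp [norm_exE]
  · rw [Set.indicator_of_notMem hx, Set.indicator_of_notMem hx]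
    simp

lemma gf_int (lam : E 4) {r : ℝ} (hr : 0 < r) : Integrable (gf lam r) :=
  memLp_one_iff_integrable.1 (gf_memLp lam hr 1)

/-- the indicator function -/
noncomputable def ind1 : E 4 → ℂ := OmE.indicator (fun _ => 1)

lemma ind1_memLp (p : ℝ≥0∞) : MemLp ind1 p (volume : Measure (E 4)) :=
  memLp_indicator_const p measurableSet_OmE _ (Or.inr (by rw [volume_OmE]; norm_num))

lemma ind1_int : Integrable ind1 := memLp_one_iff_integrable.1 (ind1_memLp 1)

/-- change of variables for the inverse Fourier transform -/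
lemma fourierInv_gf (lam : E 4) {r : ℝ} (hr : 0 < r) (x : E 4) :
    𝓕⁻ (gf lam r) x = ((r ^ 2 : ℝ) : ℂ) * 𝓕⁻ ind1 (r • x - lam) := by
  rw [Real.fourierInv_eq, Real.fourierInv_eq]
  simp only [fourierChar_eq]
  have h1 := Measure.integral_comp_smul (volume : Measure (E 4)) (fun v => exE x v * gf lam r v) r
  have h2 : (Module.finrank ℝ (E 4)) = 4 := by simp
  rw [h2, abs_of_pos (by positivity)] at h1
  have h3 : ∫ v, exE x v * gf lam r v = ((r ^ 4 : ℝ) : ℂ) * ∫ v, exE x (r • v) * gf lam r (r • v) := by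
    rw [h1, Complex.real_smul]
    push_cast
    rw [← mul_assoc, mul_inv_cancel₀ (by exact_mod_cast (pow_pos hr 4).ne'), one_mul]
  rw [h3, ← integral_const_mul, ← integral_const_mul]
  refine integral_congr_ae (Filter.Eventually.of_forall fun v => ?_)
  simp only
  have h4 : exE (r • x - lam) v = exE x (r • v) * conj (exE lam v) := by
    unfold exE
    rw [← ex_neg, cv_sub, cv_smul, cv_smul, sub_eq_add_neg, ex_add_left]
    congr 1
    unfold ex
    congr 3
    refine Finset.sum_congr rfl fun i _ => ?_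
    simp only [Pi.smul_apply, smul_eq_mul]
    ring
  have h5 : gf lam r (r • v) = ((r ^ 2 : ℝ) : ℂ)⁻¹ * (conj (exE lam v) * ind1 v) := by
    unfold gf ind1
    have h6 : r⁻¹ • (r • v) = v := by rw [smul_smul, inv_mul_cancel₀ hr.ne', one_smul]
    rw [h6]
    congr 2
    by_cases hv : v ∈ OmE
    · rw [Set.indicator_of_mem hv, Set.indicator_of_mem]
      unfold Sr
      rw [Set.mem_ofPred_eq, h6]
      exact hv
    · rw [Set.indicator_of_notMem hv, Set.indicator_of_notMem]
      unfold Sr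
      rw [Set.mem_ofPred_eq, h6]
      exact hv
  rw [h4, h5]
  have hr2 : ((r ^ 2 : ℝ) : ℂ) ≠ 0 := by exact_mod_cast (pow_pos hr 2).ne'
  have h7 : ((r ^ 4 : ℝ) : ℂ) = ((r ^ 2 : ℝ) : ℂ) * ((r ^ 2 : ℝ) : ℂ) := by
    rw [← Complex.ofReal_mul]; congr 1; ring
  rw [h7]
  field_simp

/-! ### Orthogonality and completeness on the Fourier side -/

/-- the product integral -/
lemma integral_conj_gf (lam : E 4) {r : ℝ} (hr : 0 < r) (h : E 4 → ℂ) :
    ∫ x, conj (gf lam r x) * h x
      = ((r ^ 2 : ℝ) : ℂ) * ∫ x, exE lam x * ind1 x * h (r • x) := by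
  have h1 := Measure.integral_comp_smul (volume : Measure (E 4))
    (fun v => conj (gf lam r v) * h v) r
  have h2 : (Module.finrank ℝ (E 4)) = 4 := by simp
  rw [h2, abs_of_pos (by positivity)] at h1
  have h3 : ∫ v, conj (gf lam r v) * h v
      = ((r ^ 4 : ℝ) : ℂ) * ∫ v, conj (gf lam r (r • v)) * h (r • v) := by
    rw [h1, Complex.real_smul]
    push_cast
    rw [← mul_assoc, mul_inv_cancel₀ (by exact_mod_cast (pow_pos hr 4).ne'), one_mul]
  rw [h3, ← integral_const_mul, ← integral_const_mul]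
  refine integral_congr_ae (Filter.Eventually.of_forall fun v => ?_)
  simp only
  have h5 : gf lam r (r • v) = ((r ^ 2 : ℝ) : ℂ)⁻¹ * (conj (exE lam v) * ind1 v) := by
    unfold gf ind1
    have h6 : r⁻¹ • (r • v) = v := by rw [smul_smul, inv_mul_cancel₀ hr.ne', one_smul]
    rw [h6]
    congr 2
    by_cases hv : v ∈ OmE
    · rw [Set.indicator_of_mem hv, Set.indicator_of_mem]
      unfold Sr
      rw [Set.mem_ofPred_eq, h6]
      exact hv
    · rw [Set.indicator_of_notMem hv, Set.indicator_of_notMem]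
      unfold Sr
      rw [Set.mem_ofPred_eq, h6]
      exact hv
  have h8 : conj (ind1 v) = ind1 v := by
    unfold ind1
    by_cases hv : v ∈ OmE
    · rw [Set.indicator_of_mem hv, map_one]
    · rw [Set.indicator_of_notMem hv, map_zero]
  rw [h5, map_mul, map_mul, Complex.conj_conj, h8, map_inv₀, Complex.conj_ofReal]
  have hr2 : ((r ^ 2 : ℝ) : ℂ) ≠ 0 := by exact_mod_cast (pow_pos hr 2).ne'
  have h7 : ((r ^ 4 : ℝ) : ℂ) = ((r ^ 2 : ℝ) : ℂ) * ((r ^ 2 : ℝ) : ℂ) := by
    rw [← Complex.ofReal_mul]; congr 1; ring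
  rw [h7]
  field_simp

open Classical in
/-- Gram matrix at one scale. -/
lemma gram_same (k k' : Fin 4 → ℤ) (i i' : Fin 6) {r : ℝ} (hr : 0 < r) :
    ∫ x, conj (gf (vc (iv k + (3 : ℝ)⁻¹ • iv (gg i))) r x)
      * gf (vc (iv k' + (3 : ℝ)⁻¹ • iv (gg i'))) r x
      = if k - k' = 0 ∧ i = i' then 6 else 0 := by
  rw [integral_conj_gf _ hr]
  have h5 : ∀ v, gf (vc (iv k' + (3 : ℝ)⁻¹ • iv (gg i'))) r (r • v)
      = ((r ^ 2 : ℝ) : ℂ)⁻¹ * (conj (exE (vc (iv k' + (3 : ℝ)⁻¹ • iv (gg i'))) v) * ind1 v) := by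
    intro v
    unfold gf ind1
    have h6 : r⁻¹ • (r • v) = v := by rw [smul_smul, inv_mul_cancel₀ hr.ne', one_smul]
    rw [h6]
    congr 2
    by_cases hv : v ∈ OmE
    · rw [Set.indicator_of_mem hv, Set.indicator_of_mem]
      unfold Sr
      rw [Set.mem_ofPred_eq, h6]
      exact hv
    · rw [Set.indicator_of_notMem hv, Set.indicator_of_notMem]
      unfold Sr
      rw [Set.mem_ofPred_eq, h6]
      exact hv
  have hr2 : ((r ^ 2 : ℝ) : ℂ) ≠ 0 := by exact_mod_cast (pow_pos hr 2).ne'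
  rw [← integral_const_mul]
  have h6 : ∀ v, ((r ^ 2 : ℝ) : ℂ) * (exE (vc (iv k + (3 : ℝ)⁻¹ • iv (gg i))) v * ind1 v
      * gf (vc (iv k' + (3 : ℝ)⁻¹ • iv (gg i'))) r (r • v))
      = (Om.indicator (ex (iv (k - k') + (3 : ℝ)⁻¹ • iv (gg i - gg i')))) (cv v) := by
    intro v
    rw [h5]
    have h7 : iv (k - k') + (3 : ℝ)⁻¹ • iv (gg i - gg i')
        = (iv k + (3 : ℝ)⁻¹ • iv (gg i)) + -(iv k' + (3 : ℝ)⁻¹ • iv (gg i')) := by
      funext a
      simp only [iv, Pi.add_apply, Pi.smul_apply, Pi.sub_apply, Pi.neg_apply, smul_eq_mul]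
      push_cast
      ring
    by_cases hv : v ∈ OmE
    · have hv' : cv v ∈ Om := hv
      unfold ind1
      rw [Set.indicator_of_mem hv, Set.indicator_of_mem hv', h7, ex_add_left, ex_neg]
      unfold exE
      rw [cv_vc, cv_vc]
      field_simp
    · have hv' : cv v ∉ Om := hv
      unfold ind1
      rw [Set.indicator_of_notMem hv, Set.indicator_of_notMem hv']
      simp
  simp only [h6]
  rw [mp_cv.integral_comp me_cv (Om.indicator (ex (iv (k - k') + (3 : ℝ)⁻¹ • iv (gg i - gg i')))),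
    integral_indicator measurableSet_Om, integral_Om]

lemma Sr_disjoint {n n' : ℤ} (h : n ≠ n') {x : E 4} (hx : x ≠ 0) (h1 : x ∈ Sr (sc n))
    (h2 : x ∈ Sr (sc n')) : False := by
  apply h
  have hy : ((3 : ℝ)⁻¹ • cv x) ≠ 0 := by
    intro hc
    apply hx
    have : cv x = 0 := by
      have h3 := congrArg (fun y => (3 : ℝ) • y) hc
      simpa using h3
    rw [← vc_cv x, this]
    rfl
  obtain ⟨m, _, hm⟩ := Om_dilation hy
  have key : ∀ n : ℤ, x ∈ Sr (sc n) → ((2 : ℝ) ^ (-n)) • ((3 : ℝ)⁻¹ • cv x) ∈ Om := by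
    intro n hn
    have h3 : cv ((sc n)⁻¹ • x) ∈ Om := hn
    rw [cv_smul] at h3
    rw [smul_smul]
    have h4 : (2 : ℝ) ^ (-n) * 3⁻¹ = (sc n)⁻¹ := by
      unfold sc
      rw [mul_inv, zpow_neg]
      ring
    rw [h4]
    exact h3
  have h3 := hm _ (key n h1)
  have h4 := hm _ (key n' h2)
  omega

lemma gram_diff (lam lam' : E 4) {n n' : ℤ} (h : n ≠ n') :
    ∫ x, conj (gf lam (sc n) x) * gf lam' (sc n') x = 0 := by
  refine integral_eq_zero_of_ae ?_
  have h0 : ∀ᵐ x : E 4, x ≠ 0 := Measure.ae_ne volume 0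
  filter_upwards [h0] with x hx
  unfold gf
  by_cases h1 : x ∈ Sr (sc n)
  · by_cases h2 : x ∈ Sr (sc n')
    · exact (Sr_disjoint h hx h1 h2).elim
    · rw [Set.indicator_of_notMem h2]
      simp
  · rw [Set.indicator_of_notMem h1]
    simp

/-- Completeness: an `L²` function orthogonal to all the `gf` vanishes. -/
lemma gf_complete {h : E 4 → ℂ} (hh : MemLp h 2 volume)
    (horth : ∀ (k : Fin 4 → ℤ) (i : Fin 6) (n : ℤ),
      ∫ x, conj (gf (vc (iv k + (3 : ℝ)⁻¹ • iv (gg i))) (sc n) x) * h x = 0) :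
    h =ᵐ[volume] 0 := by
  -- scale by scale
  have hscale : ∀ n : ℤ, ∀ᵐ x : E 4, x ∈ Sr (sc n) → h x = 0 := by
    intro n
    set r := sc n with hr
    have hrpos : 0 < r := sc_pos n
    -- dilated function
    set H : (Fin 4 → ℝ) → ℂ := fun y => conj (ind1 (vc y) * h (r • vc y)) with hH
    have hmemr : MemLp (fun x : E 4 => h (r • x)) 2 volume := by
      -- scaling preserves L²
      have h1 : Measure.map (fun x : E 4 => r • x) volume
          = ENNReal.ofReal |(r ^ Module.finrank ℝ (E 4))⁻¹| • volume :=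
        Measure.map_addHaar_smul volume hrpos.ne'
      have h2 : MemLp h 2 (Measure.map (fun x : E 4 => r • x) volume) := by
        rw [h1]
        exact hh.smul_measure ENNReal.ofReal_ne_top
      exact (memLp_map_measure_iff h2.1 (measurable_const_smul r).aemeasurable).1 h2
    have hmem : MemLp H 2 volume := by
      have h1 : MemLp (fun x : E 4 => ind1 x * h (r • x)) 2 volume := by
        have h2 : (fun x : E 4 => ind1 x * h (r • x)) = OmE.indicator (fun x => h (r • x)) := by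
          funext x
          unfold ind1
          by_cases hx : x ∈ OmE
          · rw [Set.indicator_of_mem hx, Set.indicator_of_mem hx, one_mul]
          · rw [Set.indicator_of_notMem hx, Set.indicator_of_notMem hx, zero_mul]
        rw [h2]
        exact hmemr.indicator measurableSet_OmE
      have h3 : MemLp (fun y => ind1 (vc y) * h (r • vc y)) 2 volume :=
        h1.comp_measurePreserving mp_vc
      refine h3.congr_norm ?_ ?_
      · exact Complex.continuous_conj.comp_aestronglyMeasurable h3.1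
      · refine Filter.Eventually.of_forall fun y => ?_
        simp [hH]
    have h0 : ∀ y, y ∉ Om → H y = 0 := by
      intro y hy
      have : vc y ∉ OmE := hy
      simp only [hH, ind1]
      rw [Set.indicator_of_notMem this]
      simp
    have hz : H =ᵐ[volume] 0 := by
      refine completeness hmem h0 fun k i => ?_
      have h1 := horth k i n
      rw [← hr, integral_conj_gf _ hrpos] at h1
      have hr2 : ((r ^ 2 : ℝ) : ℂ) ≠ 0 := by exact_mod_cast (pow_pos hrpos 2).ne'
      have h2 := (mul_eq_zero.1 h1).resolve_left hr2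
      have h3 : ∫ y, conj (ex (iv k + (3 : ℝ)⁻¹ • iv (gg i)) y) * H y
          = conj (∫ x, exE (vc (iv k + (3 : ℝ)⁻¹ • iv (gg i))) x * ind1 x * h (r • x)) := by
        rw [← integral_conj, ← mp_vc.integral_comp me_vc]
        refine integral_congr_ae (Filter.Eventually.of_forall fun y => ?_)
        simp only [hH, exE, cv_vc, map_mul]
        ring
      rw [h3, h2, map_zero]
    -- transfer back
    have hz' : ∀ᵐ x : E 4, ind1 x * h (r • x) = 0 := by
      have h1 : ∀ᵐ x : E 4, H (cv x) = 0 := mp_cv.quasiMeasurePreserving.ae hz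
      filter_upwards [h1] with x hx
      simp only [hH, vc_cv] at hx
      have h2 := congrArg (fun z : ℂ => conj z) hx
      simpa using h2
    -- substitute
    have hq : Measure.QuasiMeasurePreserving (fun x : E 4 => r⁻¹ • x) volume volume := by
      refine ⟨measurable_const_smul _, ?_⟩
      rw [Measure.map_addHaar_smul volume (inv_ne_zero hrpos.ne')]
      exact Measure.smul_absolutelyContinuous
    have h2 := hq.ae hz'
    filter_upwards [h2] with x hx hxS
    rw [smul_smul, mul_inv_cancel₀ hrpos.ne', one_smul] at hx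
    have h3 : ind1 (r⁻¹ • x) = 1 := by
      unfold ind1
      exact Set.indicator_of_mem (show r⁻¹ • x ∈ OmE from hxS) (fun _ => (1 : ℂ))
    rw [h3, one_mul] at hx
    exact hx
  have hall : ∀ᵐ x : E 4, ∀ n : ℤ, x ∈ Sr (sc n) → h x = 0 := ae_all_iff.2 hscale
  have h0 : ∀ᵐ x : E 4, x ≠ 0 := Measure.ae_ne volume 0
  filter_upwards [hall, h0] with x hx hx0
  have hy : ((3 : ℝ)⁻¹ • cv x) ≠ 0 := by
    intro hc
    apply hx0
    have : cv x = 0 := by
      have h3 := congrArg (fun y => (3 : ℝ) • y) hc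
      simpa using h3
    rw [← vc_cv x, this]
    rfl
  obtain ⟨m, hm, _⟩ := Om_dilation hy
  refine hx (-m) ?_
  change cv ((sc (-m))⁻¹ • x) ∈ Om
  rw [cv_smul]
  rw [smul_smul] at hm
  have h4 : (2 : ℝ) ^ m * 3⁻¹ = (sc (-m))⁻¹ := by
    unfold sc
    rw [mul_inv, zpow_neg, inv_inv]
    ring
  rwa [h4] at hm

/-! ### The wavelet set property -/

/-- index data of an element of `Lam ×ˢ Adil` -/
lemma exists_index (p : ((Lam ×ˢ Adil : Set (E 4 × (E 4 ≃L[ℝ] E 4))))) :
    ∃ (q : ((Fin 4 → ℤ) × Fin 6) × ℤ), p.1.1 = vc (iv q.1.1 + (3 : ℝ)⁻¹ • iv (gg q.1.2)) ∧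
      p.1.2 = dil (sc q.2) (sc_pos q.2).ne' := by
  obtain ⟨⟨l, a⟩, ⟨q, hq⟩, ⟨n, hn⟩⟩ := p
  exact ⟨(q, n), hq.symm, hn.symm⟩

/-- `Om` is a wavelet set for the separable index `Lam × Adil`. -/
theorem isWaveletSet_OmE : IsWaveletSet (Lam ×ˢ Adil) OmE := by
  classical
  refine ⟨measurableSet_OmE, by rw [volume_OmE]; norm_num, by rw [volume_OmE]; norm_num, ?_⟩
  set ψ : Lp ℂ 2 (volume : Measure (E 4)) := 𝓕⁻ ((ind1_memLp 2).toLp ind1) with hψ
  refine ⟨ψ, ?_, ?_⟩
  · unfold HasFourierTransformL2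
    rw [hψ, FourierTransform.fourier_fourierInv_eq]
    exact (ind1_memLp 2).coeFn_toLp
  -- choice of indices
  choose ix hix1 hix2 using exists_index
  set lamf : ((Fin 4 → ℤ) × Fin 6) → E 4 := fun q => vc (iv q.1 + (3 : ℝ)⁻¹ • iv (gg q.2))
    with hlamf
  set gq : (((Fin 4 → ℤ) × Fin 6) × ℤ) → Lp ℂ 2 (volume : Measure (E 4)) :=
    fun q => (gf_memLp (lamf q.1) (sc_pos q.2) 2).toLp (gf (lamf q.1) (sc q.2)) with hgq
  -- Gram matrix
  have hgram : ∀ q q', inner ℂ (gq q) (gq q')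
      = ∫ x, conj (gf (lamf q.1) (sc q.2) x) * gf (lamf q'.1) (sc q'.2) x := by
    intro q q'
    rw [L2.inner_def]
    refine integral_congr_ae ?_
    filter_upwards [(gf_memLp (lamf q.1) (sc_pos q.2) 2).coeFn_toLp,
      (gf_memLp (lamf q'.1) (sc_pos q'.2) 2).coeFn_toLp] with x h1 h2
    rw [hgq]
    simp only
    rw [h1, h2, RCLike.inner_apply, mul_comm]
  have hgram_eq : ∀ q q', inner ℂ (gq q) (gq q')
      = if q.1.1 - q'.1.1 = 0 ∧ q.1.2 = q'.1.2 ∧ q.2 = q'.2 then 6 else 0 := by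
    intro q q'
    rw [hgram]
    by_cases hn : q.2 = q'.2
    · have h1 := gram_same q.1.1 q'.1.1 q.1.2 q'.1.2 (sc_pos q.2)
      rw [← hn]
      simp only [and_true]
      simp only [hlamf]
      rw [h1]
    · rw [gram_diff _ _ hn, if_neg (fun h => hn h.2.2)]
  refine ⟨fun p => 𝓕⁻ (gq (ix p)), ?_, ?_, ?_, ?_⟩
  · -- the formula for the wavelets
    intro p
    have hr := sc_pos (ix p).2
    have h1 := fourierInv_toLp (gf_int (lamf (ix p).1) hr) (gf_memLp (lamf (ix p).1) hr 2)
    have h2 := fourierInv_toLp ind1_int (ind1_memLp 2)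
    -- compose with the affine map
    have hq : Measure.QuasiMeasurePreserving
        (fun x : E 4 => (sc (ix p).2) • x - lamf (ix p).1) volume volume := by
      have h3 : Measure.QuasiMeasurePreserving (fun x : E 4 => (sc (ix p).2) • x)
          volume volume := by
        refine ⟨measurable_const_smul _, ?_⟩
        rw [Measure.map_addHaar_smul volume hr.ne']
        exact Measure.smul_absolutelyContinuous
      exact (measurePreserving_sub_right (volume : Measure (E 4))
        (lamf (ix p).1)).quasiMeasurePreserving.comp h3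
    have h4 := hq.ae h2
    filter_upwards [h1, h4] with x hx1 hx2
    have h5 : (((fun p => (𝓕⁻ (gq (ix p)) : Lp ℂ 2 (volume : Measure (E 4)))) p : E 4 → ℂ)) x
        = 𝓕⁻ (gf (lamf (ix p).1) (sc (ix p).2)) x := hx1
    rw [h5, fourierInv_gf _ hr]
    unfold wavelet
    rw [hix1 p, hix2 p, dil_apply, modulus_dil]
    have h6 : Real.sqrt ((sc (ix p).2) ^ 4) = (sc (ix p).2) ^ 2 := by
      rw [show (sc (ix p).2) ^ 4 = ((sc (ix p).2) ^ 2) ^ 2 by ring]
      exact Real.sqrt_sq (by positivity)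
    rw [h6]
    congr 1
    exact hx2.symm
  · -- nonzero
    intro p h0
    have h1 := hgram_eq (ix p) (ix p)
    simp only [sub_self, true_and, if_true] at h1
    have h2 : gq (ix p) = 0 := by
      have h3 := congrArg (fun u : Lp ℂ 2 (volume : Measure (E 4)) => 𝓕 u) h0
      simp only [FourierTransform.fourier_fourierInv_eq] at h3
      rw [h3]
      exact map_zero (Lp.fourierTransformₗᵢ (E 4) ℂ)
    rw [h2, inner_zero_left] at h1
    norm_num at h1
  · -- orthogonal
    intro p p' hpp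
    have h1 : inner ℂ (𝓕⁻ (gq (ix p)) : Lp ℂ 2 (volume : Measure (E 4))) (𝓕⁻ (gq (ix p')))
        = inner ℂ (gq (ix p)) (gq (ix p')) :=
      (Lp.fourierTransformₗᵢ (E 4) ℂ).symm.inner_map_map _ _
    rw [h1, hgram_eq]
    rw [if_neg]
    rintro ⟨e1, e2, e3⟩
    apply hpp
    have e1' := sub_eq_zero.1 e1
    apply Subtype.ext
    apply Prod.ext
    · rw [hix1 p, hix1 p', e1', e2]
    · rw [hix2 p, hix2 p']
      congr 1
      rw [e3]
  · -- complete
    rw [Submodule.topologicalClosure_eq_top_iff, Submodule.eq_bot_iff]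
    intro f hf
    rw [Submodule.mem_orthogonal] at hf
    set h : Lp ℂ 2 (volume : Measure (E 4)) := 𝓕 f with hh
    have hfz : ∀ q, inner ℂ (gq q) h = 0 := by
      intro q
      have hmem : ((lamf q.1, dil (sc q.2) (sc_pos q.2).ne') : E 4 × (E 4 ≃L[ℝ] E 4))
          ∈ (Lam ×ˢ Adil : Set (E 4 × (E 4 ≃L[ℝ] E 4))) := ⟨⟨q.1, rfl⟩, ⟨q.2, rfl⟩⟩
      set p : ((Lam ×ˢ Adil : Set (E 4 × (E 4 ≃L[ℝ] E 4)))) := ⟨_, hmem⟩ with hp
      have h1 := hf (𝓕⁻ (gq (ix p))) (Submodule.subset_span ⟨p, rfl⟩)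
      have h2 : inner ℂ (gq (ix p)) h = 0 := by
        rw [← h1, hh]
        have h3 := (Lp.fourierTransformₗᵢ (E 4) ℂ).inner_map_map (𝓕⁻ (gq (ix p))) f
        rw [← h3]
        congr 1
        exact (FourierTransform.fourier_fourierInv_eq (E := Lp ℂ 2 (volume : Measure (E 4)))
          (F := Lp ℂ 2 (volume : Measure (E 4))) (gq (ix p))).symm
      -- same function although the index may differ
      have h3 : gq (ix p) = gq q := by
        have e1 : lamf (ix p).1 = lamf q.1 := (hix1 p).symm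
        have e2 : sc (ix p).2 = sc q.2 := by
          have h4 := hix2 p
          have h5 := congrArg (fun a : E 4 ≃L[ℝ] E 4 => a (vc (fun _ => 1))) h4
          simp only [hp, dil_apply] at h5
          have h6 := congrArg (fun y : E 4 => cv y 0) h5
          simp only [cv_smul, cv_vc, Pi.smul_apply, smul_eq_mul, mul_one] at h6
          exact h6.symm
        rw [hgq]
        simp only
        apply Lp.ext
        refine (MemLp.coeFn_toLp _).trans ?_
        refine Filter.EventuallyEq.trans ?_ (MemLp.coeFn_toLp _).symm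
        rw [e1, e2]
      rw [← h3]
      exact h2
    have hz : (h : E 4 → ℂ) =ᵐ[volume] 0 := by
      refine gf_complete (Lp.memLp h) fun k i n => ?_
      have h1 := hfz ((k, i), n)
      rw [L2.inner_def] at h1
      rw [← h1]
      refine integral_congr_ae ?_
      filter_upwards [(gf_memLp (lamf (k, i)) (sc_pos n) 2).coeFn_toLp] with x hx
      rw [hgq]
      simp only
      rw [hx, RCLike.inner_apply, mul_comm]
    have hz' : h = 0 := by
      rw [Lp.eq_zero_iff_ae_eq_zero]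
      exact hz
    have h3 : (Lp.fourierTransformₗᵢ (E 4) ℂ) f = 0 := hz'
    exact (LinearIsometryEquiv.map_eq_zero_iff _).1 h3

/-- `Om` does not tile `ℝ⁴` additively. -/
theorem not_tilesAdditively_OmE : ¬ TilesAdditively OmE := by
  rintro ⟨T, hT, htile⟩
  refine not_tile ⟨cv '' T, hT.image cv, ?_⟩
  have h1 : ∀ᵐ y : Fin 4 → ℝ, ∑' t : T,
      OmE.indicator (fun _ => (1 : ℝ≥0∞)) (vc y - (t : E 4)) = 1 :=
    mp_vc.quasiMeasurePreserving.ae htile
  filter_upwards [h1] with y hy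
  have hinj : Function.Injective cv := fun a b h => by rw [← vc_cv a, ← vc_cv b, h]
  have h2 := (Equiv.Set.image cv T hinj).tsum_eq
    (fun t : (cv '' T) => Om.indicator (fun _ => (1 : ℝ≥0∞)) (y - (t : Fin 4 → ℝ)))
  rw [← h2]
  refine Eq.trans (tsum_congr fun t => ?_) hy
  simp only [Equiv.Set.image_apply]
  by_cases h3 : y - cv t ∈ Om
  · rw [Set.indicator_of_mem h3, Set.indicator_of_mem]
    exact h3
  · rw [Set.indicator_of_notMem h3, Set.indicator_of_notMem]
    exact h3

lemma countable_index : (Lam ×ˢ Adil : Set (E 4 × (E 4 ≃L[ℝ] E 4))).Countable :=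
  (Set.countable_range _).prod (Set.countable_range _)

lemma zero_mem_Lam : (0 : E 4) ∈ Lam := by
  refine ⟨(0, 0), ?_⟩
  simp only
  rw [gg_zero, iv_zero, smul_zero, add_zero]
  rfl

/-- Main theorem. -/
theorem main : ∃ (L : Set (E 4)) (A : Set (AutE 4)) (Ω : Set (E 4)),
    (L ×ˢ A).Countable ∧ (0 : E 4) ∈ L ∧ A.Nonempty ∧ (∀ a ∈ A, modulus a ≠ 1) ∧
      IsWaveletSet (L ×ˢ A) Ω ∧ ¬ TilesAdditively Ω := by
  refine ⟨Lam, Adil, OmE, countable_index, zero_mem_Lam, ⟨_, ⟨0, rfl⟩⟩, ?_, isWaveletSet_OmE,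
    not_tilesAdditively_OmE⟩
  rintro a ⟨n, rfl⟩
  exact modulus_ne_one n

end Pool.Agent.Helper66.WS
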